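import Mathlib

/-! Cliques with few colours in edge-coloured complete graphs whose colour classes have bounded
VC-dimension: definitions. -/

namespace Pool.Agent.Helper34_VC

open Finset

/-- The neighbourhood of `x` in the colour class `q` of the edge-colouring `c` (the values of `c`
on the diagonal play no role). -/
def nbr {n k : ℕ} (c : Fin n → Fin n → Fin k) (q : Fin k) (x : Fin n) : Finset (Fin n) :=
  univ.filter (fun y => y ≠ x ∧ c x y = q)

/-- Every colour class of `c`, as a graph, has VC-dimension at most `d`: for each colour `q` the
VC-dimension of the family of the neighbourhoods of the vertices in colour `q` is at most `d`. -/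
def ClassVC {n k : ℕ} (c : Fin n → Fin n → Fin k) (d : ℕ) : Prop :=
  ∀ q : Fin k, (univ.image (nbr c q)).vcDim ≤ d

/-- Every `k`-edge-colouring of the complete graph on `n` vertices (a symmetric function `c`; its
values on the diagonal play no role) all of whose colour classes have VC-dimension at most `d`
contains `p` vertices whose edges receive at most `p - 2` distinct colours. -/
def ForcesVC (d p k n : ℕ) : Prop :=
  ∀ c : Fin n → Fin n → Fin k, (∀ x y, c x y = c y x) → ClassVC c d →
    ∃ S : Finset (Fin n), S.card = p ∧ (S.offDiag.image (fun e => c e.1 e.2)).card ≤ p - 2

end Pool.Agent.Helper34_VC
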