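import Mathlib
import Pool.Agent.Helper34_VC.Defs
import Pool.Agent.Helper73_EG.Final

/-! The refined colouring: all classes are unions of disjoint complete bipartite graphs. -/

namespace Pool.Agent.Helper34_VC

open Finset Pool.Agent.Helper73_EG

/-- a colouring whose classes are closed under completing rectangles has classes of
VC-dimension at most one -/
theorem vc_of_rect {n k : ℕ} {c : Fin n → Fin n → Fin k}
    (h : ∀ x x' y z, x ≠ y → x' ≠ y → x ≠ z → c x y = c x' y → c x y = c x z →
      x' ≠ z ∧ c x' z = c x y) : ClassVC c 1 := by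
  intro q
  unfold Finset.vcDim
  rw [Finset.sup_le_iff]
  intro S hS
  by_contra hcon
  push Not at hcon
  obtain ⟨y, hy, z, hz, hyz⟩ := one_lt_card.1 hcon
  rw [mem_shatterer] at hS
  obtain ⟨N, hN, hSN⟩ := hS (subset_refl S)
  obtain ⟨N', hN', hSN'⟩ := hS (singleton_subset_iff.2 hy)
  rw [mem_image] at hN hN'
  obtain ⟨x, _, rfl⟩ := hN
  obtain ⟨x', _, rfl⟩ := hN'
  have h1 : y ∈ nbr c q x := (mem_inter.1 (by rw [hSN]; exact hy)).2
  have h2 : z ∈ nbr c q x := (mem_inter.1 (by rw [hSN]; exact hz)).2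
  have h3 : y ∈ nbr c q x' := (mem_inter.1 (by rw [hSN']; exact mem_singleton_self y)).2
  have h4 : z ∉ nbr c q x' := by
    intro h4
    have : z ∈ ({y} : Finset (Fin n)) := by rw [← hSN']; exact mem_inter.2 ⟨hz, h4⟩
    exact hyz (mem_singleton.1 this).symm
  unfold nbr at h1 h2 h3 h4
  rw [mem_filter] at h1 h2 h3 h4
  obtain ⟨e1, e2⟩ := h x x' y z h1.2.1.symm h3.2.1.symm h2.2.1.symm (h1.2.2.trans h3.2.2.symm)
    (h1.2.2.trans h2.2.2.symm)
  exact h4 ⟨mem_univ _, e1.symm, e2.trans h1.2.2⟩

/-- position of the first binary digit at which `u` and `v` differ -/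
noncomputable def fb (u v : ℕ) : ℕ := sInf {s | u.testBit s ≠ v.testBit s}

theorem fb_nonempty {u v : ℕ} (h : u ≠ v) : ({s | u.testBit s ≠ v.testBit s} : Set ℕ).Nonempty := by
  by_contra hcon
  rw [Set.not_nonempty_iff_eq_empty] at hcon
  apply h
  apply Nat.eq_of_testBit_eq
  intro s
  by_contra hs
  have : s ∈ ({s | u.testBit s ≠ v.testBit s} : Set ℕ) := hs
  rw [hcon] at this
  exact this

theorem fb_spec {u v : ℕ} (h : u ≠ v) : u.testBit (fb u v) ≠ v.testBit (fb u v) := Nat.sInf_mem (fb_nonempty h)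

theorem fb_min {u v s : ℕ} (h : s < fb u v) : u.testBit s = v.testBit s := by
  by_contra hs
  exact absurd (Nat.sInf_le (show s ∈ {s | u.testBit s ≠ v.testBit s} from hs)) (by unfold fb at h; omega)

theorem fb_eq {u v s : ℕ} (h1 : u.testBit s ≠ v.testBit s) (h2 : ∀ s' < s, u.testBit s' = v.testBit s') :
    fb u v = s := by
  apply le_antisymm (Nat.sInf_le h1)
  by_contra hlt
  push Not at hlt
  exact (Nat.sInf_mem (⟨s, h1⟩ : ({s | u.testBit s ≠ v.testBit s} : Set ℕ).Nonempty)) (h2 _ hlt)

theorem fb_comm (u v : ℕ) : fb u v = fb v u := by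
  unfold fb
  congr 1
  ext s
  exact ⟨fun h => Ne.symm h, fun h => Ne.symm h⟩

theorem fb_lt {u v b : ℕ} (hu : u < 2 ^ b) (hv : v < 2 ^ b) (h : u ≠ v) : fb u v < b := by
  by_contra hcon
  push Not at hcon
  apply fb_spec h
  rw [Nat.testBit_lt_two_pow (hu.trans_le (Nat.pow_le_pow_right (by norm_num) hcon)),
    Nat.testBit_lt_two_pow (hv.trans_le (Nat.pow_le_pow_right (by norm_num) hcon))]

/-- the record of two letters: nothing if they are equal, otherwise the first different digit and
its value in the first letter -/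
noncomputable def dl (u v : ℕ) : Option (ℕ × Bool) :=
  if u = v then none else some (fb u v, u.testBit (fb u v))

theorem dl_none {u v : ℕ} : dl u v = none ↔ u = v := by
  unfold dl
  split_ifs with h <;> simp [h]

theorem dl_rect {u u' v w : ℕ} (h1 : dl u v = dl u' v) (h2 : dl u v = dl u w) : dl u' w = dl u v := by
  by_cases h : u = v
  · subst h
    have e1 : u' = u := dl_none.1 (h1.symm.trans (dl_none.2 rfl))
    have e2 : u = w := dl_none.1 (h2.symm.trans (dl_none.2 rfl))
    rw [e1, ← e2]
  · have h' : u' ≠ v := fun e => h (dl_none.1 (h1.trans (dl_none.2 e)))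
    have h'' : u ≠ w := fun e => h (dl_none.1 (h2.trans (dl_none.2 e)))
    unfold dl at h1 h2
    rw [if_neg h, if_neg h'] at h1
    rw [if_neg h, if_neg h''] at h2
    simp only [Option.some.injEq, Prod.mk.injEq] at h1 h2
    have s1 := fb_spec h
    have s2 := fb_spec h'
    have s3 := fb_spec h''
    have hne : u'.testBit (fb u v) ≠ w.testBit (fb u v) := by
      rw [← h1.1] at s2 h1
      rw [← h2.1] at s3 h2
      intro e
      apply s3
      rw [h1.2, e]
    have hfb : fb u' w = fb u v := by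
      apply fb_eq hne
      intro s hs
      have t1 : u.testBit s = v.testBit s := fb_min hs
      have t2 : u'.testBit s = v.testBit s := fb_min (by rw [← h1.1]; exact hs)
      have t3 : u.testBit s = w.testBit s := fb_min (by rw [← h2.1]; exact hs)
      rw [t2, ← t1, t3]
    have hne' : u' ≠ w := by
      rintro rfl
      exact hne rfl
    unfold dl
    rw [if_neg hne', if_neg h, hfb]
    congr 2
    rw [← h1.1] at h1
    exact h1.2.symm

/-- `x` is smaller than `y` at the first position before `n` at which they differ -/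
def lts (n : ℕ) (x y : ℕ → ℕ) : Prop := ∃ i < n, (∀ j < i, x j = y j) ∧ x i < y i

theorem lts_iff {n i : ℕ} {x y : ℕ → ℕ} (hi : i < n) (h : ∀ j < i, x j = y j) (hne : x i ≠ y i) :
    lts n x y ↔ x i < y i := by
  constructor
  · rintro ⟨i', _, h', hlt⟩
    rcases lt_trichotomy i i' with hh | hh | hh
    · exact absurd (h' i hh) hne
    · rw [hh]; exact hlt
    · have := h i' hh
      omega
  · intro hlt
    exact ⟨i, hi, h, hlt⟩

open Classical in
/-- the refined label -/
noncomputable def rf (t r n : ℕ) (x y : ℕ → ℕ) :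
    (ℕ → Option (Option (Finset ℕ × (ℕ → ℕ)))) × (ℕ → Option (ℕ × Bool)) :=
  (col t r n x y, fun i => if i < n then (if lts n x y then dl (x i) (y i) else dl (y i) (x i)) else none)

theorem exists_first {n : ℕ} {x y : ℕ → ℕ} (h : ¬ ∀ i < n, x i = y i) :
    ∃ i < n, (∀ j < i, x j = y j) ∧ x i ≠ y i := by
  classical
  push Not at h
  have hex : ∃ i, i < n ∧ x i ≠ y i := h
  obtain ⟨h1, h2⟩ := Nat.find_spec hex
  refine ⟨Nat.find hex, h1, ?_, h2⟩
  intro j hj
  by_contra hcon
  exact Nat.find_min hex hj ⟨hj.trans h1, hcon⟩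

theorem rf_symm (t r n : ℕ) (x y : ℕ → ℕ) : rf t r n x y = rf t r n y x := by
  unfold rf
  refine Prod.ext col_symm ?_
  funext i
  simp only
  split_ifs with hi h1 h2 h2
  · exfalso
    by_cases h : ∀ i < n, x i = y i
    · obtain ⟨i', hi', _, hlt⟩ := h1
      have := h i' hi'
      omega
    · obtain ⟨i0, hi0, ha, hne⟩ := exists_first h
      rw [lts_iff hi0 ha hne] at h1
      rw [lts_iff hi0 (fun j hj => (ha j hj).symm) hne.symm] at h2
      omega
  · rfl
  · rfl
  · by_cases h : ∀ i < n, x i = y i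
    · rw [h i hi]
    · exfalso
      obtain ⟨i0, hi0, ha, hne⟩ := exists_first h
      rw [lts_iff hi0 ha hne] at h1
      rw [lts_iff hi0 (fun j hj => (ha j hj).symm) hne.symm] at h2
      omega
  · rfl

theorem pair_eq {a b a' : ℕ} (h : ({a, b} : Finset ℕ) = {a', b}) (hab : a ≠ b) (hab' : a' ≠ b) : a' = a := by
  have h1 : a ∈ ({a', b} : Finset ℕ) := by rw [← h]; simp
  simp only [mem_insert, mem_singleton] at h1
  rcases h1 with h1 | h1
  · exact h1.symm
  · exact absurd h1 hab

theorem pair_eq' {a b b' : ℕ} (h : ({a, b} : Finset ℕ) = {a, b'}) (hab : a ≠ b) (hab' : a ≠ b') : b' = b := by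
  have h1 : b ∈ ({a, b'} : Finset ℕ) := by rw [← h]; simp
  simp only [mem_insert, mem_singleton] at h1
  rcases h1 with h1 | h1
  · exact absurd h1.symm hab
  · exact h1.symm

/-- what the equality of two labels `col` gives at a position -/
theorem col_at {t r n i : ℕ} {x y x' y' : ℕ → ℕ} (h : col t r n x y = col t r n x' y') (hi : i < n)
    (hne : x i ≠ y i) (hlv : lv t r i x y ≠ 0) (hlv' : lv t r i x' y' = lv t r i x y) :
    ({x i, y i} : Finset ℕ) = {x' i, y' i} ∧
      win t (lv t r i x y - 1) i x = win t (lv t r i x y - 1) i x' := by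
  have hne' : x' i ≠ y' i := by
    intro e
    apply hne
    rw [← col_none_iff (t := t) (r := r) hi, h, col_none_iff hi]
    exact e
  have h1 := congrFun h i
  unfold col info at h1
  rw [if_pos hi, if_pos hi, if_neg hne, if_neg hne', if_neg hlv, hlv', if_neg hlv] at h1
  simp only [Option.some.injEq, Prod.mk.injEq] at h1
  exact h1

theorem lv_of_pattern {t r i : ℕ} {x y x' y' : ℕ → ℕ} (h : ∀ j < i, (x j = y j ↔ x' j = y' j)) :
    lv t r i x' y' = lv t r i x y := by
  have hag : ∀ j, ag t j i x y ↔ ag t j i x' y' := by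
    intro j
    unfold ag
    constructor
    · intro h1 k hk hk'; rw [← h k hk]; exact h1 k hk hk'
    · intro h1 k hk hk'; rw [h k hk]; exact h1 k hk hk'
  apply le_antisymm
  · rw [← ag_iff (lv_le _ _ _ _ _), hag, ag_iff (lv_le _ _ _ _ _)]
  · rw [← ag_iff (lv_le _ _ _ _ _), ← hag, ag_iff (lv_le _ _ _ _ _)]

theorem lv_first {t r i : ℕ} {x y : ℕ → ℕ} (h : ∀ j < i, x j = y j) : lv t r i x y = r := by
  apply le_antisymm (lv_le _ _ _ _ _)
  rw [← ag_iff le_rfl]
  intro j hj _
  exact h j hj

/-- completing rectangles -/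
theorem rf_rect {t r n : ℕ} (hr : 1 ≤ r) {x x' y z : ℕ → ℕ} (hxy : ¬ ∀ i < n, x i = y i)
    (h1 : rf t r n x y = rf t r n x' y) (h2 : rf t r n x y = rf t r n x z) :
    (¬ ∀ i < n, x' i = z i) ∧ rf t r n x' z = rf t r n x y := by
  have c1 : col t r n x y = col t r n x' y := congrArg Prod.fst h1
  have c2 : col t r n x y = col t r n x z := congrArg Prod.fst h2
  have p1 : ∀ i < n, (x i = y i ↔ x' i = y i) := by
    intro i hi
    rw [← col_none_iff (t := t) (r := r) hi, ← col_none_iff (t := t) (r := r) hi, c1]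
  have p2 : ∀ i < n, (x i = y i ↔ x i = z i) := by
    intro i hi
    rw [← col_none_iff (t := t) (r := r) hi, ← col_none_iff (t := t) (r := r) hi, c2]
  obtain ⟨i0, hi0, ha, hne⟩ := exists_first hxy
  have hne1 : x' i0 ≠ y i0 := fun e => hne ((p1 i0 hi0).2 e)
  have hne2 : x i0 ≠ z i0 := fun e => hne ((p2 i0 hi0).2 e)
  have ha1 : ∀ j < i0, x' j = y j := fun j hj => (p1 j (hj.trans hi0)).1 (ha j hj)
  have ha2 : ∀ j < i0, x j = z j := fun j hj => (p2 j (hj.trans hi0)).1 (ha j hj)
  have hl : lv t r i0 x y ≠ 0 := by rw [lv_first ha]; omega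
  have q1 := (col_at c1 hi0 hne hl (by rw [lv_first ha, lv_first ha1])).1
  have q2 := (col_at c2 hi0 hne hl (by rw [lv_first ha, lv_first ha2])).1
  have e1 : x' i0 = x i0 := pair_eq q1 hne hne1
  have e2 : z i0 = y i0 := pair_eq' q2 hne hne2
  have ha3 : ∀ j < i0, x' j = z j := fun j hj => by rw [ha1 j hj, ← ha j hj, ha2 j hj]
  have hne3 : x' i0 ≠ z i0 := by rw [e1, e2]; exact hne
  have l0 : lts n x y ↔ x i0 < y i0 := lts_iff hi0 ha hne
  have l1 : lts n x' y ↔ x i0 < y i0 := by rw [lts_iff hi0 ha1 hne1, e1]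
  have l2 : lts n x z ↔ x i0 < y i0 := by rw [lts_iff hi0 ha2 hne2, e2]
  have l3 : lts n x' z ↔ x i0 < y i0 := by rw [lts_iff hi0 ha3 hne3, e1, e2]
  have d1 : ∀ i < n, (if x i0 < y i0 then dl (x i) (y i) else dl (y i) (x i)) =
      (if x i0 < y i0 then dl (x' i) (y i) else dl (y i) (x' i)) := by
    intro i hi
    have := congrFun (congrArg Prod.snd h1) i
    simp only [rf, if_pos hi, l0, l1] at this
    exact this
  have d2 : ∀ i < n, (if x i0 < y i0 then dl (x i) (y i) else dl (y i) (x i)) =
      (if x i0 < y i0 then dl (x i) (z i) else dl (z i) (x i)) := by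
    intro i hi
    have := congrFun (congrArg Prod.snd h2) i
    simp only [rf, if_pos hi, l0, l2] at this
    exact this
  have d3 : ∀ i < n, (if x i0 < y i0 then dl (x' i) (z i) else dl (z i) (x' i)) =
      (if x i0 < y i0 then dl (x i) (y i) else dl (y i) (x i)) := by
    intro i hi
    have g1 := d1 i hi
    have g2 := d2 i hi
    split_ifs at g1 g2 ⊢ with h
    · exact dl_rect g1 g2
    · exact dl_rect g2 g1
  have p3 : ∀ i < n, (x i = y i ↔ x' i = z i) := by
    intro i hi
    have g := d3 i hi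
    split_ifs at g with h
    · rw [← dl_none, ← dl_none, g]
    · rw [eq_comm, eq_comm (a := x' i), ← dl_none, ← dl_none, g]
  refine ⟨fun h => hne3 (h i0 hi0), ?_⟩
  refine Prod.ext ?_ ?_
  · show col t r n x' z = col t r n x y
    funext i
    unfold col
    by_cases hi : i < n
    · rw [if_pos hi, if_pos hi]
      unfold info
      have hlv : lv t r i x' z = lv t r i x y := lv_of_pattern (fun j hj => p3 j (hj.trans hi))
      by_cases he : x i = y i
      · rw [if_pos he, if_pos ((p3 i hi).1 he)]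
      · have he3 : x' i ≠ z i := fun e => he ((p3 i hi).2 e)
        have he1 : x' i ≠ y i := fun e => he ((p1 i hi).2 e)
        have he2 : x i ≠ z i := fun e => he ((p2 i hi).2 e)
        rw [if_neg he, if_neg he3, hlv]
        by_cases h0 : lv t r i x y = 0
        · rw [if_pos h0, if_pos h0]
        · rw [if_neg h0, if_neg h0]
          have w1 := col_at c1 hi he h0 (lv_of_pattern (fun j hj => p1 j (hj.trans hi)))
          have w2 := col_at c2 hi he h0 (lv_of_pattern (fun j hj => p2 j (hj.trans hi)))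
          rw [pair_eq w1.1 he he1, pair_eq' w2.1 he he2, w1.2]
    · rw [if_neg hi, if_neg hi]
  · funext i
    simp only [rf]
    by_cases hi : i < n
    · simp only [if_pos hi, l0, l3]
      exact d3 i hi
    · rw [if_neg hi, if_neg hi]

end Pool.Agent.Helper34_VC
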