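import Mathlib
import Pool.Agent.Helper34_VC.Ref

/-! The lower bound. -/

namespace Pool.Agent.Helper34_VC

open Finset Pool.Agent.Helper73_EG

/-- the record with values in a finite type -/
noncomputable def encO (b : ℕ) (z : Option (ℕ × Bool)) : Option (Fin b × Bool) :=
  match z with
  | none => none
  | some (s, β) => if h : s < b then some (⟨s, h⟩, β) else none

theorem encO_inj {b : ℕ} {z z' : Option (ℕ × Bool)} (hz : ∀ s β, z = some (s, β) → s < b)
    (hz' : ∀ s β, z' = some (s, β) → s < b) (h : encO b z = encO b z') : z = z' := by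
  rcases z with _ | ⟨s, β⟩ <;> rcases z' with _ | ⟨s', β'⟩
  · rfl
  · have := hz' s' β' rfl
    simp [encO, this] at h
  · have := hz s β rfl
    simp [encO, this] at h
  · have h1 := hz s β rfl
    have h2 := hz' s' β' rfl
    simp only [encO, dif_pos h1, dif_pos h2, Option.some.injEq, Prod.mk.injEq, Fin.mk.injEq] at h
    rw [h.1, h.2]

theorem dl_bd {b u v : ℕ} (hu : u < 2 ^ b) (hv : v < 2 ^ b) : ∀ s β, dl u v = some (s, β) → s < b := by
  intro s β h
  unfold dl at h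
  split_ifs at h with h1
  simp only [Option.some.injEq, Prod.mk.injEq] at h
  rw [← h.1]
  exact fb_lt hu hv h1

theorem not_forcesVC (b t r p k n : ℕ) (ht : 1 ≤ t) (hr : 1 ≤ r) (hp : 2 ≤ p) (hp' : p < 2 ^ (r + 2))
    (hk : 2 ^ (t ^ r) * ((2 ^ b * 2 ^ b) ^ (t ^ (r - 1)) * ((2 ^ b) ^ (t ^ (r - 1))) ^ r) *
      (b * 2 + 1) ^ (t ^ r) ≤ k)
    (hF : ForcesVC 1 p k n) : (2 ^ b) ^ (t ^ r) < n := by
  classical
  by_contra hn
  push Not at hn
  set m := 2 ^ b with hmdef
  have hm : 1 ≤ m := Nat.one_le_two_pow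
  have hm0 : NeZero m := ⟨by omega⟩
  set T := t ^ r with hT
  -- vertices as strings
  obtain ⟨φ⟩ : Nonempty (Fin n ↪ (Fin T → Fin m)) := by
    apply Function.Embedding.nonempty_of_card_le
    simp only [Fintype.card_fin, Fintype.card_pi, Finset.prod_const, card_univ]
    exact hn
  let X : Fin n → ℕ → ℕ := fun v => ext (φ v)
  have hXinj : Function.Injective X := fun v w h => φ.injective (ext_inj h)
  have hXbd : ∀ v, Bd m T (X v) := fun v => ext_bd hm _
  have hXne : ∀ v w, v ≠ w → ¬ ∀ i < T, X v i = X w i := by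
    intro v w hvw h
    apply hvw
    apply hXinj
    funext i
    rcases Nat.lt_or_ge i T with hi | hi
    · exact h i hi
    · rw [(hXbd v).2 i hi, (hXbd w).2 i hi]
  -- the set of plain colours
  let cc : Fin n → Fin n → (ℕ → Option (Option (Finset ℕ × (ℕ → ℕ)))) := fun v w => col t r T (X v) (X w)
  let CS : Finset (ℕ → Option (Option (Finset ℕ × (ℕ → ℕ)))) := (univ : Finset (Fin n × Fin n)).image (fun e => cc e.1 e.2)
  have hcode : ∀ e e' : Fin n × Fin n, codeF m t r (X e.1) (X e.2) = codeF m t r (X e'.1) (X e'.2) →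
      cc e.1 e.2 = cc e'.1 e'.2 := by
    intro e e' h
    exact col_of_code (m := m) ht hr (hXbd _) (hXbd _) (hXbd _) (hXbd _)
      (code_of_codeF (hXbd _) (hXbd _) (hXbd _) (hXbd _) h)
  have hCS : CS.card ≤ 2 ^ T * ((m * m) ^ (t ^ (r - 1)) * (m ^ (t ^ (r - 1))) ^ r) := by
    rw [hT, ← card_code m t r, ← card_univ]
    let KS := (univ : Finset (Fin n × Fin n)).image (fun e => codeF m t r (X e.1) (X e.2))
    have h1 : CS.card ≤ KS.card := by
      refine card_le_card_of_surjOn (fun z => if h : ∃ e : Fin n × Fin n, codeF m t r (X e.1) (X e.2) = z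
        then cc h.choose.1 h.choose.2 else (fun _ => none)) ?_
      intro l hl
      simp only [CS, coe_image, coe_univ, Set.image_univ, Set.mem_range] at hl
      obtain ⟨e, rfl⟩ := hl
      have h3 : ∃ e' : Fin n × Fin n, codeF m t r (X e'.1) (X e'.2) = codeF m t r (X e.1) (X e.2) := ⟨e, rfl⟩
      refine ⟨codeF m t r (X e.1) (X e.2), ?_, ?_⟩
      · rw [mem_coe]; exact mem_image_of_mem _ (mem_univ e)
      · simp only
        rw [dif_pos h3]
        exact hcode _ _ h3.choose_spec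
    exact h1.trans (card_le_univ _)
  -- the set of refined colours
  let rr : Fin n → Fin n → (ℕ → Option (Option (Finset ℕ × (ℕ → ℕ)))) × (ℕ → Option (ℕ × Bool)) :=
    fun v w => rf t r T (X v) (X w)
  let LS : Finset ((ℕ → Option (Option (Finset ℕ × (ℕ → ℕ)))) × (ℕ → Option (ℕ × Bool))) :=
    (univ : Finset (Fin n × Fin n)).image (fun e => rr e.1 e.2)
  have hrrLS : ∀ v w, rr v w ∈ LS := fun v w =>
    mem_image_of_mem (fun e : Fin n × Fin n => rr e.1 e.2) (mem_univ (v, w))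
  have hrbd : ∀ v w i, (∀ s β, (rr v w).2 i = some (s, β) → s < b) := by
    intro v w i s β h
    simp only [rr, rf] at h
    split_ifs at h with h1 h2
    · exact dl_bd ((hXbd v).1 i) ((hXbd w).1 i) s β h
    · exact dl_bd ((hXbd w).1 i) ((hXbd v).1 i) s β h
  have hrout : ∀ v w i, T ≤ i → (rr v w).2 i = none := by
    intro v w i hi
    simp only [rr, rf]
    rw [if_neg (by omega)]
  have hLS : LS.card ≤ k := by
    refine le_trans ?_ hk
    have h1 : LS.card ≤ (CS ×ˢ (univ : Finset (Fin T → Option (Fin b × Bool)))).card := by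
      refine card_le_card_of_injOn (fun l => (l.1, fun i : Fin T => encO b (l.2 i))) ?_ ?_
      · intro l hl
        rw [mem_coe, mem_image] at hl
        obtain ⟨e, _, rfl⟩ := hl
        rw [mem_coe, mem_product]
        exact ⟨mem_image_of_mem (fun e : Fin n × Fin n => cc e.1 e.2) (mem_univ e), mem_univ _⟩
      · intro l hl l' hl' h
        rw [mem_coe, mem_image] at hl hl'
        obtain ⟨e, _, rfl⟩ := hl
        obtain ⟨e', _, rfl⟩ := hl'
        simp only [Prod.mk.injEq] at h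
        refine Prod.ext h.1 ?_
        funext i
        rcases Nat.lt_or_ge i T with hi | hi
        · exact encO_inj (hrbd _ _ i) (hrbd _ _ i) (congrFun h.2 ⟨i, hi⟩)
        · rw [hrout _ _ i hi, hrout _ _ i hi]
    refine h1.trans ?_
    rw [card_product, card_univ, Fintype.card_fun, Fintype.card_option, Fintype.card_prod, Fintype.card_bool,
      Fintype.card_fin, Fintype.card_fin]
    exact Nat.mul_le_mul_right _ hCS
  have hkpos : 0 < k := lt_of_lt_of_le (by positivity) hk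
  obtain ⟨f, hf⟩ : ∃ f : ((ℕ → Option (Option (Finset ℕ × (ℕ → ℕ)))) × (ℕ → Option (ℕ × Bool))) → Fin k,
      Set.InjOn f LS := by
    have h1 : Fintype.card LS ≤ Fintype.card (Fin k) := by simpa using hLS
    obtain ⟨ψ⟩ := Function.Embedding.nonempty_of_card_le h1
    refine ⟨fun l => if h : l ∈ LS then ψ ⟨l, h⟩ else ⟨0, hkpos⟩, ?_⟩
    intro a ha b hb hab
    simp only [mem_coe] at ha hb
    simp only [dif_pos ha, dif_pos hb] at hab
    exact congrArg Subtype.val (ψ.injective hab)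
  have hfrr : ∀ v w v' w', f (rr v w) = f (rr v' w') → rr v w = rr v' w' := fun v w v' w' h =>
    hf (mem_coe.2 (hrrLS v w)) (mem_coe.2 (hrrLS v' w')) h
  obtain ⟨S, hSp, hSc⟩ := hF (fun v w => f (rr v w)) (fun v w => by simp only [rr]; rw [rf_symm]) (by
    apply vc_of_rect
    intro x x' y z hxy _ _ h1 h2
    have g := rf_rect hr (hXne x y hxy) (hfrr _ _ _ _ h1) (hfrr _ _ _ _ h2)
    refine ⟨?_, ?_⟩
    · rintro rfl
      exact g.1 (fun _ _ => rfl)
    · exact congrArg f g.2)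
  -- transfer to strings
  have hgood := good_col t r hr T le_rfl (S.image X) (by
    intro x hx i hi
    rw [mem_image] at hx
    obtain ⟨v, _, rfl⟩ := hx
    exact (hXbd v).2 i hi) (by
    rw [card_image_of_injective _ hXinj, hSp]; omega)
  rw [card_image_of_injective _ hXinj, hSp] at hgood
  have h1 : (Pool.Agent.Helper73_EG.labs (col t r T) (S.image X)).card ≤
      (S.offDiag.image (fun e => f (rr e.1 e.2))).card := by
    have h2 : S.offDiag.image (fun e => f (rr e.1 e.2)) = (S.offDiag.image (fun e => rr e.1 e.2)).image f := by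
      rw [image_image]; rfl
    rw [h2, card_image_of_injOn]
    · refine le_trans (card_le_card ?_) (card_image_le (s := S.offDiag.image (fun e => rr e.1 e.2)) (f := Prod.fst))
      intro l hl
      rw [Pool.Agent.Helper73_EG.mem_labs] at hl
      obtain ⟨x, hx, y, hy, hxy, rfl⟩ := hl
      rw [mem_image] at hx hy
      obtain ⟨v, hv, rfl⟩ := hx
      obtain ⟨w, hw, rfl⟩ := hy
      rw [image_image, mem_image]
      refine ⟨(v, w), ?_, rfl⟩
      rw [mem_offDiag]
      exact ⟨hv, hw, fun h => hxy (by simp only at h; rw [h])⟩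
    · refine hf.mono ?_
      intro l hl
      rw [mem_coe, mem_image] at hl
      obtain ⟨e, _, rfl⟩ := hl
      rw [mem_coe]
      exact hrrLS e.1 e.2
  have hSc' : (S.offDiag.image (fun e => f (rr e.1 e.2))).card ≤ p - 2 := hSc
  omega

/-- with `2^((r+4) a t^r)` colours -/
theorem not_forcesVC' (a t r p k n : ℕ) (ha : 1 ≤ a) (ht : 1 ≤ t) (hr : 1 ≤ r) (hp : 2 ≤ p) (hp' : p < 2 ^ (r + 2))
    (hat : 2 * a * t + 1 ≤ 2 ^ a) (hk : 2 ^ ((r + 4) * a * t ^ r) ≤ k) (hF : ForcesVC 1 p k n) :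
    2 ^ (a * t ^ (r + 1)) < n := by
  have h := not_forcesVC (a * t) t r p k n ht hr hp hp' (le_trans ?_ hk) hF
  · rwa [← pow_mul, mul_assoc, ← pow_succ'] at h
  · obtain ⟨s, rfl⟩ : ∃ s, r = s + 1 := ⟨r - 1, by omega⟩
    rw [Nat.add_sub_cancel]
    have h1 : (a * t * 2 + 1) ^ (t ^ (s + 1)) ≤ 2 ^ (a * t ^ (s + 1)) := by
      rw [pow_mul]
      apply Nat.pow_le_pow_left
      have : a * t * 2 + 1 = 2 * a * t + 1 := by ring
      rw [this]
      exact hat
    have h2 : 2 ^ (t ^ (s + 1)) ≤ 2 ^ (a * t ^ (s + 1)) :=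
      Nat.pow_le_pow_right (by norm_num) (Nat.le_mul_of_pos_left _ (by omega))
    have h3 : (2 ^ (a * t) * 2 ^ (a * t)) ^ (t ^ s) * ((2 ^ (a * t)) ^ (t ^ s)) ^ (s + 1) =
        2 ^ ((s + 3) * a * t ^ (s + 1)) := by
      rw [← pow_add, ← pow_mul, ← pow_mul, ← pow_mul, ← pow_add]
      congr 1
      rw [pow_succ t s]
      ring
    calc 2 ^ (t ^ (s + 1)) * ((2 ^ (a * t) * 2 ^ (a * t)) ^ (t ^ s) * ((2 ^ (a * t)) ^ (t ^ s)) ^ (s + 1)) *
          (a * t * 2 + 1) ^ (t ^ (s + 1))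
        ≤ 2 ^ (a * t ^ (s + 1)) * 2 ^ ((s + 3) * a * t ^ (s + 1)) * 2 ^ (a * t ^ (s + 1)) := by
          rw [h3]
          exact Nat.mul_le_mul (Nat.mul_le_mul_right _ h2) h1
      _ = 2 ^ ((s + 1 + 4) * a * t ^ (s + 1)) := by
          rw [← pow_add, ← pow_add]
          congr 1
          ring

theorem ForcesVC.of_one {d p k n : ℕ} (hd : 1 ≤ d) (hF : ForcesVC d p k n) : ForcesVC 1 p k n := by
  intro c hsym hc
  exact hF c hsym (fun q => (hc q).trans hd)

theorem two_pow_ge (s : ℕ) (hs : 7 ≤ s) : s ^ 2 ≤ 2 ^ (s - 1) := by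
  induction s, hs using Nat.le_induction with
  | base => norm_num
  | succ s hs ih =>
    obtain ⟨u, rfl⟩ : ∃ u, s = u + 1 := ⟨s - 1, by omega⟩
    simp only [Nat.add_sub_cancel] at ih ⊢
    rw [pow_succ 2 u]
    nlinarith

/-- **Lower bound.** -/
theorem lower (r : ℕ) (hr : 1 ≤ r) : ∃ c : ℝ, 0 < c ∧ ∃ k₀ : ℕ, ∀ k : ℕ, k₀ ≤ k →
    ∀ p : ℕ, 2 ≤ p → p < 2 ^ (r + 2) → ∀ d : ℕ, 1 ≤ d → ∀ n : ℕ, ForcesVC d p k n →
      Real.exp (c * (Real.log k) ^ (1 + 1 / (r : ℝ)) / (Real.log (Real.log k)) ^ (1 / (r : ℝ))) ≤ n := by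
  set e : ℝ := 1 + 1 / (r : ℝ) with he
  have hr0 : (0 : ℝ) < r := by exact_mod_cast hr
  have he0 : 0 < e := by positivity
  have hl2 : 0 < Real.log 2 := Real.log_pos (by norm_num)
  have hl2' : (0.69 : ℝ) < Real.log 2 := by
    have := Real.log_two_gt_d9
    linarith
  have hl2'' : Real.log 2 < 1 := by
    have := Real.log_two_lt_d9
    linarith
  refine ⟨Real.log 2 / (2 ^ (r + 1) * (r + 4) ^ e * 2 ^ e * 12 ^ (1 / (r : ℝ))), by positivity,
    2 ^ (2 ^ (3 * (r + 4))), ?_⟩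
  intro k hk p hp hp' d hd n hF
  have hF1 := hF.of_one hd
  -- parameters
  set L := Nat.log 2 k with hL
  have hkpos : 0 < k := lt_of_lt_of_le (by positivity) hk
  have hLk : 2 ^ L ≤ k := Nat.pow_log_le_self 2 hkpos.ne'
  have hLk' : k < 2 ^ (L + 1) := Nat.lt_pow_succ_log_self (by norm_num) k
  have hLbig : 2 ^ (3 * (r + 4)) ≤ L := by
    rw [hL]
    exact Nat.le_log_of_pow_le (by norm_num) hk
  set s := Nat.size L with hs
  have hsbig : 3 * (r + 4) < s := by
    rw [hs, Nat.lt_size]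
    exact hLbig
  have hs1 : 2 ^ (s - 1) ≤ L := by
    rw [← Nat.lt_size, ← hs]
    omega
  have hsL : L < 2 ^ s := Nat.lt_size_self L
  set a := 2 * s + 5 with ha
  have hL1 : 1 ≤ L := le_trans Nat.one_le_two_pow hLbig
  have hsleL : s ≤ L := by
    rw [hs, Nat.size_le]
    exact Nat.lt_two_pow_self
  have haL : (r + 4) * a ≤ L := by
    have h1 := two_pow_ge s (by omega)
    have h2 : (r + 4) * a ≤ s ^ 2 := by
      rw [ha]
      nlinarith
    omega
  -- y and t
  have haR : (0 : ℝ) < a := by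
    have : 0 < a := by omega
    exact_mod_cast this
  set y : ℝ := ((L : ℝ) / ((r + 4) * a)) ^ (1 / (r : ℝ)) with hy
  have hq1 : 1 ≤ (L : ℝ) / ((r + 4) * a) := by
    rw [one_le_div (by positivity)]
    exact_mod_cast haL
  have hy1 : 1 ≤ y := Real.one_le_rpow hq1 (by positivity)
  have hyr : y ^ r = (L : ℝ) / ((r + 4) * a) := by
    rw [hy, ← Real.rpow_natCast, ← Real.rpow_mul (by positivity), one_div_mul_cancel hr0.ne', Real.rpow_one]
  have hye : ((L : ℝ) / ((r + 4) * a)) ^ e = y ^ (r + 1) := by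
    rw [he, Real.rpow_add (by positivity), Real.rpow_one, pow_succ, hyr]
  set t := ⌊y⌋₊ with ht
  have ht1 : 1 ≤ t := by
    rw [ht]; exact Nat.le_floor (by exact_mod_cast hy1)
  have hty : (t : ℝ) ≤ y := Nat.floor_le (by positivity)
  have hty2 : y / 2 ≤ t := by
    have h1 : y < t + 1 := Nat.lt_floor_add_one y
    have h2 : (1 : ℝ) ≤ t := by exact_mod_cast ht1
    linarith
  have hcount : (r + 4) * a * t ^ r ≤ L := by
    have h1 : ((r + 4) * a * t ^ r : ℝ) ≤ L := by
      calc ((r + 4) * a * t ^ r : ℝ) ≤ (r + 4) * a * y ^ r := by gcongr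
        _ = L := by rw [hyr]; field_simp
    exact_mod_cast h1
  have htL : t ≤ L := by
    have h1 : t ≤ t ^ r := Nat.le_self_pow (by omega) t
    have h2 : t ^ r ≤ (r + 4) * a * t ^ r := Nat.le_mul_of_pos_left _ (by positivity)
    omega
  have hat : 2 * a * t + 1 ≤ 2 ^ a := by
    have h1 : 2 ^ a = 32 * (2 ^ s * 2 ^ s) := by
      rw [ha, pow_add, two_mul, pow_add]
      ring
    have h2 : L * L ≤ 2 ^ s * 2 ^ s := Nat.mul_le_mul hsL.le hsL.le
    have h3 : 2 * a * t + 1 ≤ 2 * a * L + 1 := by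
      have := Nat.mul_le_mul_left (2 * a) htL
      omega
    have h4 : 2 * a * L + 1 ≤ 32 * (L * L) := by
      have h5 : a ≤ 2 * L + 5 := by omega
      nlinarith
    rw [h1]
    omega
  have hfin := not_forcesVC' a t r p k n (by omega) ht1 hr hp hp' hat
    ((Nat.pow_le_pow_right (by norm_num) hcount).trans hLk) hF1
  have hnpos : 0 < n := lt_of_le_of_lt (Nat.zero_le _) hfin
  have hnR : (0 : ℝ) < n := by exact_mod_cast hnpos
  rw [← Real.le_log_iff_exp_le hnR]
  have h1 : (a : ℝ) * t ^ (r + 1) * Real.log 2 ≤ Real.log n := by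
    have h2 : ((2 ^ (a * t ^ (r + 1)) : ℕ) : ℝ) ≤ n := by exact_mod_cast hfin.le
    have h3 := Real.log_le_log (by positivity) h2
    push_cast at h3
    rw [Real.log_pow] at h3
    push_cast at h3
    exact h3
  -- log k
  have hkR : (0 : ℝ) < k := by exact_mod_cast hkpos
  have hlk1 : (L : ℝ) * Real.log 2 ≤ Real.log k := by
    have h2 : ((2 ^ L : ℕ) : ℝ) ≤ k := by exact_mod_cast hLk
    have h3 := Real.log_le_log (by positivity) h2
    push_cast at h3
    rw [Real.log_pow] at h3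
    exact h3
  have hlk2 : Real.log k ≤ 2 * L := by
    have h2 : (k : ℝ) ≤ ((2 ^ (L + 1) : ℕ) : ℝ) := by exact_mod_cast hLk'.le
    have h3 := Real.log_le_log hkR h2
    push_cast at h3
    rw [Real.log_pow] at h3
    push_cast at h3
    have h4 : (1 : ℝ) ≤ L := by exact_mod_cast hL1
    nlinarith
  have hlkpos : 0 < Real.log k := by
    have h4 : (1 : ℝ) ≤ L := by exact_mod_cast hL1
    nlinarith
  -- loglog k
  have hs15 : (15 : ℝ) < s := by
    have : 15 < s := by omega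
    exact_mod_cast this
  have hll : ((s : ℝ) - 2) * Real.log 2 ≤ Real.log (Real.log k) := by
    have h2 : (2 : ℝ) ^ (s - 2) ≤ Real.log k := by
      have h3 : 2 ^ (s - 2) * 2 ≤ L := by
        rw [← pow_succ]
        have : s - 2 + 1 = s - 1 := by omega
        rw [this]
        exact hs1
      have h4 : (2 : ℝ) ^ (s - 2) * 2 ≤ L := by exact_mod_cast h3
      nlinarith
    have h3 := Real.log_le_log (by positivity) h2
    rw [Real.log_pow] at h3
    have h4 : ((s - 2 : ℕ) : ℝ) = (s : ℝ) - 2 := by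
      rw [Nat.cast_sub (by omega)]
      norm_num
    rw [h4] at h3
    exact h3
  set ℓ := Real.log (Real.log k) with hℓ
  have hℓ0 : 0 < ℓ := by nlinarith
  have haℓ : (a : ℝ) ≤ 12 * ℓ := by
    have h2 : (a : ℝ) = 2 * s + 5 := by rw [ha]; push_cast; ring
    rw [h2]
    nlinarith
  -- final
  have hpow : Real.log 2 * a * (y / 2) ^ (r + 1) ≤ Real.log n := by
    have h2 : (y / 2) ^ (r + 1) ≤ (t : ℝ) ^ (r + 1) := by gcongr
    calc Real.log 2 * a * (y / 2) ^ (r + 1) ≤ Real.log 2 * a * (t : ℝ) ^ (r + 1) := by gcongr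
      _ = (a : ℝ) * t ^ (r + 1) * Real.log 2 := by ring
      _ ≤ Real.log n := h1
  refine le_trans ?_ hpow
  rw [div_pow, ← hye]
  have hL0 : (0 : ℝ) ≤ L := by positivity
  rw [Real.div_rpow hL0 (by positivity), Real.mul_rpow (by positivity) haR.le]
  have hae : (a : ℝ) ^ e = a * (a : ℝ) ^ (1 / (r : ℝ)) := by
    rw [he, Real.rpow_add haR, Real.rpow_one]
  rw [hae]
  have hLe : (Real.log k) ^ e ≤ 2 ^ e * (L : ℝ) ^ e := by
    rw [← Real.mul_rpow (by norm_num) hL0]
    exact Real.rpow_le_rpow hlkpos.le hlk2 he0.le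
  have haie : (a : ℝ) ^ (1 / (r : ℝ)) ≤ 12 ^ (1 / (r : ℝ)) * ℓ ^ (1 / (r : ℝ)) := by
    rw [← Real.mul_rpow (by norm_num) hℓ0.le]
    exact Real.rpow_le_rpow haR.le haℓ (by positivity)
  have hai0 : 0 < (a : ℝ) ^ (1 / (r : ℝ)) := by positivity
  have hℓi0 : 0 < ℓ ^ (1 / (r : ℝ)) := by positivity
  have hrhs : Real.log 2 * a * ((L : ℝ) ^ e / ((r + 4) ^ e * (a * (a : ℝ) ^ (1 / (r : ℝ)))) / 2 ^ (r + 1)) =
      Real.log 2 / (2 ^ (r + 1) * (r + 4) ^ e) * ((L : ℝ) ^ e / (a : ℝ) ^ (1 / (r : ℝ))) := by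
    field_simp
  rw [hrhs]
  have hlhs : Real.log 2 / (2 ^ (r + 1) * (r + 4) ^ e * 2 ^ e * 12 ^ (1 / (r : ℝ))) * (Real.log k) ^ e /
      ℓ ^ (1 / (r : ℝ)) = Real.log 2 / (2 ^ (r + 1) * (r + 4) ^ e) *
      (((Real.log k) ^ e / 2 ^ e) / (12 ^ (1 / (r : ℝ)) * ℓ ^ (1 / (r : ℝ)))) := by
    field_simp
  rw [hlhs]
  have h5 : (Real.log k) ^ e / 2 ^ e ≤ (L : ℝ) ^ e := by
    rw [div_le_iff₀ (by positivity), mul_comm]
    exact hLe
  have h6 : ((Real.log k) ^ e / 2 ^ e) / (12 ^ (1 / (r : ℝ)) * ℓ ^ (1 / (r : ℝ))) ≤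
      (L : ℝ) ^ e / (a : ℝ) ^ (1 / (r : ℝ)) := by
    apply div_le_div₀ (by positivity) h5 hai0 haie
  exact mul_le_mul_of_nonneg_left h6 (by positivity)

end Pool.Agent.Helper34_VC
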