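import Mathlib

/-! Greedy hitting sets, Sauer-Shelah, packing. -/

namespace Pool.Agent.Helper34_VC

open Finset

variable {α β : Type*} [DecidableEq α] [DecidableEq β]

/-- a family of `N` dense subsets of `U` is hit by few points -/
theorem hitting (U : Finset α) (m : ℕ) (hm : 0 < m) :
    ∀ (s : ℕ) (D : Finset (Finset α)), (∀ A ∈ D, A ⊆ U) → (∀ A ∈ D, U.card ≤ m * A.card) →
      (∀ A ∈ D, A.Nonempty) →
      D.card * (m - 1) ^ s < m ^ s → ∃ S ⊆ U, S.card ≤ s ∧ ∀ A ∈ D, ∃ y ∈ S, y ∈ A := by
  intro s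
  induction s with
  | zero =>
    intro D _ _ _ h
    have h0 : D.card = 0 := by simpa using h
    refine ⟨∅, empty_subset _, by simp, ?_⟩
    intro A hA
    rw [card_eq_zero] at h0
    rw [h0] at hA
    exact absurd hA (notMem_empty _)
  | succ s ih =>
    intro D hsub hden hne h
    rcases D.eq_empty_or_nonempty with rfl | hDne
    · exact ⟨∅, empty_subset _, by simp, fun A hA => absurd hA (notMem_empty _)⟩
    -- a popular point
    have hpop : ∃ u ∈ U, D.card ≤ m * (D.filter (fun A => u ∈ A)).card := by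
      by_contra hcon
      push Not at hcon
      have h1 : ∑ u ∈ U, (D.filter (fun A => u ∈ A)).card = ∑ A ∈ D, A.card := by
        have h2 : ∀ u ∈ U, (D.filter (fun A => u ∈ A)).card = ∑ A ∈ D, if u ∈ A then 1 else 0 := by
          intro u _
          rw [card_filter]
        rw [sum_congr rfl h2, sum_comm]
        refine sum_congr rfl ?_
        intro A hA
        rw [← card_filter]
        congr 1
        ext u
        simp only [mem_filter]
        exact ⟨fun h => h.2, fun h => ⟨hsub A hA h, h⟩⟩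
      have hUne : U.Nonempty := by
        obtain ⟨A, hA⟩ := hDne
        exact (hne A hA).mono (hsub A hA)
      have h3 : ∑ u ∈ U, m * (D.filter (fun A => u ∈ A)).card < ∑ u ∈ U, D.card :=
        sum_lt_sum_of_nonempty hUne (fun u hu => hcon u hu)
      rw [← mul_sum, h1, sum_const, smul_eq_mul] at h3
      have h4 : ∑ A ∈ D, U.card ≤ ∑ A ∈ D, m * A.card := sum_le_sum hden
      rw [sum_const, smul_eq_mul, ← mul_sum] at h4
      rw [mul_comm U.card] at h3
      omega
    obtain ⟨u, hu, hupop⟩ := hpop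
    have hsplit := card_filter_add_card_filter_not (s := D) (fun A => u ∈ A)
    have hD' : m * (D.filter (fun A => ¬ u ∈ A)).card ≤ (m - 1) * D.card := by
      have : (m - 1) * D.card + D.card = m * D.card := by
        obtain ⟨m', rfl⟩ : ∃ m', m = m' + 1 := ⟨m - 1, by omega⟩
        simp only [Nat.add_sub_cancel]
        ring
      have h5 : m * D.card = m * (D.filter (fun A => u ∈ A)).card + m * (D.filter (fun A => ¬ u ∈ A)).card := by
        rw [← mul_add, hsplit]
      omega
    have hlt : (D.filter (fun A => ¬ u ∈ A)).card * (m - 1) ^ s < m ^ s := by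
      have h6 : m * ((D.filter (fun A => ¬ u ∈ A)).card * (m - 1) ^ s) < m * m ^ s := by
        calc m * ((D.filter (fun A => ¬ u ∈ A)).card * (m - 1) ^ s)
            = (m * (D.filter (fun A => ¬ u ∈ A)).card) * (m - 1) ^ s := by ring
          _ ≤ ((m - 1) * D.card) * (m - 1) ^ s := Nat.mul_le_mul_right _ hD'
          _ = D.card * (m - 1) ^ (s + 1) := by ring
          _ < m ^ (s + 1) := h
          _ = m * m ^ s := by ring
      exact Nat.lt_of_mul_lt_mul_left h6
    obtain ⟨S, hSU, hScard, hS⟩ := ih (D.filter (fun A => ¬ u ∈ A))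
      (fun A hA => hsub A (mem_filter.1 hA).1) (fun A hA => hden A (mem_filter.1 hA).1)
      (fun A hA => hne A (mem_filter.1 hA).1) hlt
    refine ⟨insert u S, ?_, ?_, ?_⟩
    · intro x hx
      rcases mem_insert.1 hx with rfl | hx
      · exact hu
      · exact hSU hx
    · exact (card_insert_le _ _).trans (by omega)
    · intro A hA
      by_cases hA' : u ∈ A
      · exact ⟨u, mem_insert_self _ _, hA'⟩
      · obtain ⟨y, hy, hyA⟩ := hS A (mem_filter.2 ⟨hA, hA'⟩)
        exact ⟨y, mem_insert_of_mem hy, hyA⟩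

/-- number of small subsets -/
theorem card_small (S : Finset α) (d : ℕ) :
    (S.powerset.filter (fun T => T.card ≤ d)).card ≤ (S.card + 1) ^ d := by
  induction d with
  | zero =>
    rw [pow_zero]
    refine card_le_one.2 ?_
    intro a ha b hb
    rw [mem_filter] at ha hb
    rw [card_eq_zero.1 (Nat.le_zero.1 ha.2), card_eq_zero.1 (Nat.le_zero.1 hb.2)]
  | succ d ih =>
    -- T = T' or insert a T'
    have hsub : S.powerset.filter (fun T => T.card ≤ d + 1) ⊆
        ((S.powerset.filter (fun T => T.card ≤ d)) ×ˢ (S.image some ∪ {none})).image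
          (fun z => match z.2 with | none => z.1 | some a => insert a z.1) := by
      intro T hT
      rw [mem_filter, mem_powerset] at hT
      rw [mem_image]
      rcases T.eq_empty_or_nonempty with rfl | ⟨a, ha⟩
      · refine ⟨(∅, none), ?_, rfl⟩
        rw [mem_product]
        exact ⟨mem_filter.2 ⟨mem_powerset.2 (empty_subset _), by simp⟩, by simp⟩
      · refine ⟨(T.erase a, some a), ?_, ?_⟩
        · rw [mem_product]
          refine ⟨mem_filter.2 ⟨mem_powerset.2 ((erase_subset _ _).trans hT.1), ?_⟩, ?_⟩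
          · rw [card_erase_of_mem ha]
            omega
          · simp only [mem_union, mem_image]
            exact Or.inl ⟨a, hT.1 ha, rfl⟩
        · exact insert_erase ha
    refine (card_le_card hsub).trans (card_image_le.trans ?_)
    rw [card_product, pow_succ]
    refine Nat.mul_le_mul ih ?_
    refine (card_union_le _ _).trans ?_
    rw [card_singleton]
    exact Nat.add_le_add_right card_image_le _

/-- Sauer-Shelah for traces -/
theorem card_traces (F : Finset (Finset α)) (d : ℕ) (hd : F.vcDim ≤ d) (S : Finset α) :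
    (F.image (fun A => S ∩ A)).card ≤ (S.card + 1) ^ d := by
  refine (card_le_card_shatterer _).trans ((card_le_card ?_).trans (card_small S d))
  intro T hT
  rw [mem_shatterer] at hT
  rw [mem_filter, mem_powerset]
  have hTS : T ⊆ S := by
    obtain ⟨u, hu, hTu⟩ := hT (subset_refl T)
    rw [mem_image] at hu
    obtain ⟨A, _, rfl⟩ := hu
    intro x hx
    rw [← hTu] at hx
    exact (mem_inter.1 (mem_inter.1 hx).2).1
  refine ⟨hTS, ?_⟩
  refine le_trans ?_ hd
  refine Finset.Shatters.card_le_vcDim ?_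
  intro t ht
  obtain ⟨u, hu, hTu⟩ := hT ht
  rw [mem_image] at hu
  obtain ⟨A, hA, rfl⟩ := hu
  refine ⟨A, hA, ?_⟩
  rw [← hTu, ← inter_assoc, inter_eq_left.2 hTS]

theorem bern (a n : ℕ) : a ^ (n + 1) + (n + 1) * a ^ n ≤ (a + 1) ^ (n + 1) := by
  induction n with
  | zero => simp
  | succ n ih =>
    calc a ^ (n + 1 + 1) + (n + 1 + 1) * a ^ (n + 1)
        ≤ (a + 1) * (a ^ (n + 1) + (n + 1) * a ^ n) := by
          have : (a + 1) * (a ^ (n + 1) + (n + 1) * a ^ n) =
            a ^ (n + 1 + 1) + (n + 1 + 1) * a ^ (n + 1) + (n + 1) * a ^ n := by ring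
          rw [this]
          exact Nat.le_add_right _ _
      _ ≤ (a + 1) * (a + 1) ^ (n + 1) := Nat.mul_le_mul_left _ ih
      _ = (a + 1) ^ (n + 1 + 1) := by ring

theorem pow_half (m : ℕ) (hm : 2 ≤ m) : 2 * (m - 1) ^ m ≤ m ^ m := by
  obtain ⟨a, rfl⟩ : ∃ a, m = a + 1 := ⟨m - 1, by omega⟩
  simp only [Nat.add_sub_cancel]
  have h := bern a a
  have h2 : a ^ (a + 1) ≤ (a + 1) * a ^ a := by
    rw [pow_succ]
    nlinarith [Nat.zero_le (a ^ a)]
  omega

/-- the packing bound -/
def packR (d m : ℕ) : ℕ := 2 ^ (d * (2 * Nat.size (6 * d * m)))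

theorem packing (F : α → Finset α) (U W : Finset α) (d m : ℕ) (hd : 1 ≤ d) (hm : 2 ≤ m)
    (hFd : (W.image F).vcDim ≤ d) (hU : U.Nonempty)
    (hfar : ∀ x ∈ W, ∀ y ∈ W, x ≠ y → U.card < m * (symmDiff (F x) (F y) ∩ U).card) :
    W.card < packR d m := by
  by_contra hcon
  push Not at hcon
  set e := d * (2 * Nat.size (6 * d * m)) with he
  obtain ⟨W', hW'W, hW'⟩ := exists_subset_card_eq hcon
  unfold packR at hW'
  rw [← he] at hW'
  set D := W'.offDiag.image (fun z => symmDiff (F z.1) (F z.2) ∩ U) with hD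
  have hDcard : D.card ≤ 2 ^ (2 * e) := by
    refine card_image_le.trans ?_
    rw [offDiag_card, hW']
    have : (2:ℕ) ^ (2 * e) = 2 ^ e * 2 ^ e := by rw [two_mul, pow_add]
    omega
  have hmem : ∀ A ∈ D, ∃ x ∈ W', ∃ y ∈ W', x ≠ y ∧ A = symmDiff (F x) (F y) ∩ U := by
    intro A hA
    rw [hD, mem_image] at hA
    obtain ⟨z, hz, rfl⟩ := hA
    rw [mem_offDiag] at hz
    exact ⟨z.1, hz.1, z.2, hz.2.1, hz.2.2, rfl⟩
  have hfarD : ∀ A ∈ D, U.card < m * A.card := by
    intro A hA
    obtain ⟨x, hx, y, hy, hxy, rfl⟩ := hmem A hA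
    exact hfar x (hW'W hx) y (hW'W hy) hxy
  obtain ⟨S, hSU, hScard, hS⟩ := hitting U m (by omega) ((2 * e + 1) * m) D
    (fun A hA => by
      obtain ⟨x, _, y, _, _, rfl⟩ := hmem A hA
      exact inter_subset_right)
    (fun A hA => (hfarD A hA).le)
    (fun A hA => by
      rw [nonempty_iff_ne_empty]
      rintro rfl
      have := hfarD ∅ hA
      simp at this)
    (by
      have hpos : 0 < (m - 1) ^ ((2 * e + 1) * m) := pow_pos (by omega) _
      calc D.card * (m - 1) ^ ((2 * e + 1) * m) ≤ 2 ^ (2 * e) * (m - 1) ^ ((2 * e + 1) * m) :=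
            Nat.mul_le_mul_right _ hDcard
        _ < 2 ^ (2 * e + 1) * (m - 1) ^ ((2 * e + 1) * m) := by
            refine Nat.mul_lt_mul_of_pos_right ?_ hpos
            exact Nat.pow_lt_pow_right (by norm_num) (by omega)
        _ = (2 * (m - 1) ^ m) ^ (2 * e + 1) := by
            rw [mul_pow, ← pow_mul]
            congr 2
            ring
        _ ≤ (m ^ m) ^ (2 * e + 1) := Nat.pow_le_pow_left (pow_half m hm) _
        _ = m ^ ((2 * e + 1) * m) := by
            rw [← pow_mul]
            congr 1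
            ring)
  -- traces on S are distinct
  have hinj : Set.InjOn (fun x => S ∩ F x) W' := by
    intro x hx y hy hxy
    by_contra hne
    have hA : symmDiff (F x) (F y) ∩ U ∈ D := by
      rw [hD, mem_image]
      exact ⟨(x, y), mem_offDiag.2 ⟨hx, hy, hne⟩, rfl⟩
    obtain ⟨z, hzS, hz⟩ := hS _ hA
    simp only at hxy
    rw [mem_inter, mem_symmDiff] at hz
    have h1 : z ∈ S ∩ F x ↔ z ∈ S ∩ F y := by rw [hxy]
    rw [mem_inter, mem_inter] at h1
    rcases hz.1 with h | h
    · exact h.2 (h1.1 ⟨hzS, h.1⟩).2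
    · exact h.2 (h1.2 ⟨hzS, h.1⟩).2
  have h1 : W'.card ≤ (S.card + 1) ^ d := by
    rw [← card_image_of_injOn hinj]
    refine le_trans (card_le_card ?_) (card_traces (W.image F) d hFd S)
    intro T hT
    rw [mem_image] at hT ⊢
    obtain ⟨x, hx, rfl⟩ := hT
    exact ⟨F x, mem_image_of_mem F (hW'W hx), rfl⟩
  rw [hW'] at h1
  have h2 : (S.card + 1) ^ d < 2 ^ e := by
    rw [he, mul_comm d, pow_mul]
    refine Nat.pow_lt_pow_left ?_ (by omega)
    set x := 6 * d * m with hx
    have hlt : x < 2 ^ Nat.size x := Nat.lt_size_self x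
    have h3 : S.card + 1 ≤ (2 * e + 1) * m + 1 := by omega
    have h4 : (2 * e + 1) * m + 1 ≤ x * Nat.size x + 1 := by
      have hsz : 1 ≤ Nat.size x := by
        rw [Nat.one_le_iff_ne_zero, Nat.ne_zero_iff_zero_lt, Nat.size_pos]
        positivity
      have : (2 * e + 1) * m ≤ x * Nat.size x := by
        rw [he, hx]
        have h5 : 1 ≤ d * Nat.size (6 * d * m) := Nat.mul_le_mul hd hsz
        nlinarith
      omega
    have h5 : Nat.size x ≤ x := by
      rw [Nat.size_le]
      exact Nat.lt_two_pow_self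
    have h6 : x * Nat.size x + 1 < (2 ^ Nat.size x) ^ 2 := by
      have hx1 : 1 ≤ x := by
        rw [hx]
        have : 0 < 6 * d * m := by positivity
        omega
      nlinarith
    rw [mul_comm 2, pow_mul]
    omega
  omega

end Pool.Agent.Helper34_VC
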