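import Mathlib
import Pool.Agent.Helper34_VC.Defs
import Pool.Agent.Helper34_VC.Sample

/-! The step: two large sets with disjoint palettes. -/

namespace Pool.Agent.Helper34_VC

open Finset

variable {n k : ℕ}

/-- the colours occurring inside `U` -/
def labs (c : Fin n → Fin n → Fin k) (U : Finset (Fin n)) : Finset (Fin k) :=
  U.offDiag.image (fun e => c e.1 e.2)

theorem mem_labs {c : Fin n → Fin n → Fin k} {U : Finset (Fin n)} {b : Fin k} :
    b ∈ labs c U ↔ ∃ x ∈ U, ∃ y ∈ U, x ≠ y ∧ c x y = b := by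
  unfold labs
  rw [mem_image]
  constructor
  · rintro ⟨z, hz, rfl⟩
    rw [mem_offDiag] at hz
    exact ⟨z.1, hz.1, z.2, hz.2.1, hz.2.2, rfl⟩
  · rintro ⟨x, hx, y, hy, hxy, rfl⟩
    exact ⟨(x, y), mem_offDiag.2 ⟨hx, hy, hxy⟩, rfl⟩

theorem labs_mono {c : Fin n → Fin n → Fin k} {U V : Finset (Fin n)} (h : V ⊆ U) :
    labs c V ⊆ labs c U := by
  intro b hb
  rw [mem_labs] at hb ⊢
  obtain ⟨x, hx, y, hy, hxy, rfl⟩ := hb
  exact ⟨x, h hx, y, h hy, hxy, rfl⟩

theorem labs_card_le {c : Fin n → Fin n → Fin k} {U : Finset (Fin n)} : (labs c U).card ≤ k := by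
  refine (card_le_univ _).trans ?_
  rw [Fintype.card_fin]

/-- every `p` vertices of `U` see at least `p - 1` colours -/
def Good (c : Fin n → Fin n → Fin k) (p : ℕ) (U : Finset (Fin n)) : Prop :=
  ∀ S ⊆ U, S.card = p → p - 1 ≤ (labs c S).card

theorem Good.mono {c : Fin n → Fin n → Fin k} {p : ℕ} {U V : Finset (Fin n)} (h : Good c p U) (hV : V ⊆ U) :
    Good c p V := fun S hS => h S (hS.trans hV)

theorem mem_nbr {c : Fin n → Fin n → Fin k} {q : Fin k} {x y : Fin n} : y ∈ nbr c q x ↔ y ≠ x ∧ c x y = q := by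
  unfold nbr
  simp

theorem disj_labs {c : Fin n → Fin n → Fin k} (hsym : ∀ x y, c x y = c y x) {U A B Y : Finset (Fin n)}
    (hgood : Good c 4 U) (hA : A ⊆ U) (hY : Y ⊆ U) {q : Fin k}
    (hYB : ∀ b ∈ labs c B, b ∈ labs c Y) (hAY : ∀ x ∈ A, ∀ y ∈ Y, y ∈ nbr c q x) :
    Disjoint (labs c A) (labs c B) := by
  rw [disjoint_left]
  intro b hbA hbB
  obtain ⟨x, hx, x', hx', hxx, hb⟩ := mem_labs.1 hbA
  obtain ⟨y, hy, y', hy', hyy, hb'⟩ := mem_labs.1 (hYB b hbB)
  have h1 := mem_nbr.1 (hAY x hx y hy)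
  have h2 := mem_nbr.1 (hAY x hx y' hy')
  have h3 := mem_nbr.1 (hAY x' hx' y hy)
  have h4 := mem_nbr.1 (hAY x' hx' y' hy')
  have hcard : ({x, x', y, y'} : Finset (Fin n)).card = 4 := by
    rw [card_insert_of_notMem, card_insert_of_notMem, card_insert_of_notMem, card_singleton]
    · simp [hyy]
    · simp [h3.1.symm, h4.1.symm]
    · simp [hxx, h1.1.symm, h2.1.symm]
  have hsub : ({x, x', y, y'} : Finset (Fin n)) ⊆ U := by
    intro z hz
    simp only [mem_insert, mem_singleton] at hz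
    rcases hz with rfl | rfl | rfl | rfl
    · exact hA hx
    · exact hA hx'
    · exact hY hy
    · exact hY hy'
  have h5 := hgood _ hsub hcard
  have h6 : labs c {x, x', y, y'} ⊆ {b, q} := by
    intro e he
    obtain ⟨z, hz, w, hw, hzw, rfl⟩ := mem_labs.1 he
    simp only [mem_insert, mem_singleton] at hz hw ⊢
    rcases hz with rfl | rfl | rfl | rfl <;> rcases hw with rfl | rfl | rfl | rfl
    · exact absurd rfl hzw
    · exact Or.inl hb
    · exact Or.inr h1.2
    · exact Or.inr h2.2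
    · exact Or.inl ((hsym _ _).trans hb)
    · exact absurd rfl hzw
    · exact Or.inr h3.2
    · exact Or.inr h4.2
    · exact Or.inr ((hsym _ _).trans h1.2)
    · exact Or.inr ((hsym _ _).trans h3.2)
    · exact absurd rfl hzw
    · exact Or.inl hb'
    · exact Or.inr ((hsym _ _).trans h2.2)
    · exact Or.inr ((hsym _ _).trans h4.2)
    · exact Or.inl ((hsym _ _).trans hb')
    · exact absurd rfl hzw
  have h7 := (card_le_card h6).trans card_le_two
  omega

/-- a majority colour -/
theorem exists_major (c : Fin n → Fin n → Fin k) (U : Finset (Fin n)) (hU : 2 ≤ U.card) :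
    ∃ q : Fin k, U.card * (U.card - 1) ≤ k * ∑ x ∈ U, (nbr c q x ∩ U).card := by
  obtain ⟨x0, hx0⟩ : U.Nonempty := card_pos.1 (by omega)
  have hne : (univ : Finset (Fin k)).Nonempty := ⟨c x0 x0, mem_univ _⟩
  by_contra hcon
  push Not at hcon
  have h1 : ∑ q : Fin k, ∑ x ∈ U, (nbr c q x ∩ U).card = U.card * (U.card - 1) := by
    rw [sum_comm]
    have h2 : ∀ x ∈ U, ∑ q : Fin k, (nbr c q x ∩ U).card = U.card - 1 := by
      intro x hx
      rw [← card_biUnion]
      · rw [← card_erase_of_mem hx]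
        congr 1
        ext y
        simp only [mem_biUnion, mem_univ, true_and, mem_inter, mem_nbr, mem_erase]
        constructor
        · rintro ⟨q, ⟨h, _⟩, hy⟩
          exact ⟨h, hy⟩
        · rintro ⟨h, hy⟩
          exact ⟨c x y, ⟨h, rfl⟩, hy⟩
      · intro q _ q' _ hqq
        simp only [Function.onFun]
        rw [disjoint_left]
        intro y hy hy'
        simp only [mem_inter, mem_nbr] at hy hy'
        exact hqq (hy.1.2.symm.trans hy'.1.2)
    rw [sum_congr rfl h2, sum_const, smul_eq_mul]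
  have h3 : ∑ q : Fin k, k * ∑ x ∈ U, (nbr c q x ∩ U).card < ∑ _q : Fin k, U.card * (U.card - 1) :=
    sum_lt_sum_of_nonempty hne (fun q _ => hcon q)
  rw [← mul_sum, h1, sum_const, card_univ, Fintype.card_fin, smul_eq_mul] at h3
  exact lt_irrefl _ h3

theorem step {c : Fin n → Fin n → Fin k} (hsym : ∀ x y, c x y = c y x) {d : ℕ} (hd : 1 ≤ d)
    (hvc : ClassVC c d) {U : Finset (Fin n)} (hgood : Good c 4 U) (hU : 2 ≤ U.card) :
    ∃ A ⊆ U, ∃ B ⊆ U, Disjoint (labs c A) (labs c B) ∧
      U.card ≤ 4 * k * packR d (32 * k ^ 2) * A.card ∧ U.card ≤ 8 * k * B.card := by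
  classical
  obtain ⟨q, hq⟩ := exists_major c U hU
  have hk : 1 ≤ k := by
    have := q.2
    omega
  set N := U.card with hN
  set m := 32 * k ^ 2 with hm
  have hm2 : 2 ≤ m := by
    have : 1 ≤ k ^ 2 := Nat.one_le_pow _ _ hk
    omega
  set dg : Fin n → ℕ := fun x => (nbr c q x ∩ U).card with hdg
  have hdgle : ∀ x ∈ U, dg x ≤ N - 1 := by
    intro x hx
    rw [hN, ← card_erase_of_mem hx]
    refine card_le_card ?_
    intro y hy
    simp only [mem_inter, mem_nbr] at hy
    exact mem_erase.2 ⟨hy.1.1, hy.2⟩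
  set X := U.filter (fun x => N - 1 ≤ 2 * k * dg x) with hX
  have hXU : X ⊆ U := filter_subset _ _
  have hXcard : N ≤ 2 * k * X.card := by
    have h1 : ∑ x ∈ U, dg x = ∑ x ∈ X, dg x + ∑ x ∈ U.filter (fun x => ¬ N - 1 ≤ 2 * k * dg x), dg x :=
      (sum_filter_add_sum_filter_not _ _ _).symm
    have h2 : ∑ x ∈ X, dg x ≤ X.card * (N - 1) := by
      rw [← smul_eq_mul]
      exact sum_le_card_nsmul _ _ _ (fun x hx => hdgle x (hXU hx))
    have h3 : 2 * k * ∑ x ∈ U.filter (fun x => ¬ N - 1 ≤ 2 * k * dg x), dg x ≤ N * (N - 1) := by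
      rw [mul_sum]
      calc ∑ x ∈ U.filter (fun x => ¬ N - 1 ≤ 2 * k * dg x), 2 * k * dg x
          ≤ ∑ x ∈ U.filter (fun x => ¬ N - 1 ≤ 2 * k * dg x), (N - 1) := by
            refine sum_le_sum ?_
            intro x hx
            have := (mem_filter.1 hx).2
            omega
        _ = (U.filter (fun x => ¬ N - 1 ≤ 2 * k * dg x)).card * (N - 1) := by
            rw [sum_const, smul_eq_mul]
        _ ≤ N * (N - 1) := Nat.mul_le_mul_right _ (card_filter_le _ _)
    have h4 : 2 * (N * (N - 1)) ≤ 2 * k * (X.card * (N - 1)) + N * (N - 1) := by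
      calc 2 * (N * (N - 1)) ≤ 2 * (k * ∑ x ∈ U, dg x) := Nat.mul_le_mul_left _ hq
        _ = 2 * k * ∑ x ∈ X, dg x + 2 * k * ∑ x ∈ U.filter (fun x => ¬ N - 1 ≤ 2 * k * dg x), dg x := by
            rw [h1]; ring
        _ ≤ _ := Nat.add_le_add (Nat.mul_le_mul_left _ h2) h3
    have h5 : N * (N - 1) ≤ 2 * k * X.card * (N - 1) := by
      have : 2 * k * (X.card * (N - 1)) = 2 * k * X.card * (N - 1) := by ring
      omega
    exact Nat.le_of_mul_le_mul_right h5 (by omega)
  -- maximal far set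
  let far : Fin n → Fin n → Prop := fun x y => N < m * (symmDiff (nbr c q x) (nbr c q y) ∩ U).card
  have hfarsymm : ∀ x y, far x y → far y x := by
    intro x y h
    simp only [far] at h ⊢
    rwa [symmDiff_comm]
  obtain ⟨W, hW, hWmax⟩ := exists_max_image (X.powerset.filter (fun W => ∀ x ∈ W, ∀ y ∈ W, x ≠ y → far x y))
    card ⟨∅, mem_filter.2 ⟨mem_powerset.2 (empty_subset _), fun x hx => absurd hx (notMem_empty _)⟩⟩
  rw [mem_filter, mem_powerset] at hW
  obtain ⟨hWX, hWfar⟩ := hW
  have hUne : U.Nonempty := card_pos.1 (by omega)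
  have hWcard : W.card < packR d m := by
    refine packing (nbr c q) U W d m hd hm2 ?_ hUne hWfar
    exact (vcDim_mono (image_subset_image (subset_univ W))).trans (hvc q)
  have hcover : ∀ x ∈ X, ∃ w ∈ W, ¬ far x w := by
    intro x hx
    by_contra hcon
    push Not at hcon
    have hxW : x ∉ W := by
      intro hxW
      have := hcon x hxW
      simp only [far, symmDiff_self] at this
      simp at this
    have h1 := hWmax (insert x W) (by
      rw [mem_filter, mem_powerset]
      refine ⟨insert_subset hx hWX, ?_⟩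
      intro a ha b hb hab
      rcases mem_insert.1 ha with ha' | ha' <;> rcases mem_insert.1 hb with hb' | hb'
      · exact absurd (ha'.trans hb'.symm) hab
      · rw [ha']
        exact hcon b hb'
      · rw [hb']
        exact hfarsymm _ _ (hcon a ha')
      · exact hWfar a ha' b hb' hab)
    rw [card_insert_of_notMem hxW] at h1
    omega
  let cl : Fin n → Finset (Fin n) := fun w => X.filter (fun x => ¬ far x w)
  have hXne : 0 < X.card := by
    rcases Nat.eq_zero_or_pos X.card with h | h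
    · rw [h] at hXcard
      omega
    · exact h
  have hWne : W.Nonempty := by
    obtain ⟨x, hx⟩ := card_pos.1 hXne
    obtain ⟨w, hw, _⟩ := hcover x hx
    exact ⟨w, hw⟩
  obtain ⟨w, hwW, hwmax⟩ := exists_max_image W (fun w => (cl w).card) hWne
  set A := cl w with hA
  have hXA : X.card ≤ packR d m * A.card := by
    have h1 : X ⊆ W.biUnion cl := by
      intro x hx
      obtain ⟨v, hv, hxv⟩ := hcover x hx
      exact mem_biUnion.2 ⟨v, hv, mem_filter.2 ⟨hx, hxv⟩⟩
    refine (card_le_card h1).trans ((card_biUnion_le_card_mul W cl A.card (fun v hv => hwmax v hv)).trans ?_)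
    exact Nat.mul_le_mul_right _ hWcard.le
  have hAX : A ⊆ X := filter_subset _ _
  have hApos : 0 < A.card := by
    rcases Nat.eq_zero_or_pos A.card with h | h
    · rw [h] at hXA
      omega
    · exact h
  have hwX : w ∈ X := hWX hwW
  set B0 := nbr c q w ∩ U with hB0
  have hB0card : N - 1 ≤ 2 * k * B0.card := (mem_filter.1 hwX).2
  have hAB0 : ∀ x ∈ A, m * (B0 \ nbr c q x).card ≤ N := by
    intro x hx
    have h1 := (mem_filter.1 hx).2
    simp only [far, not_lt] at h1
    refine le_trans (Nat.mul_le_mul_left _ (card_le_card ?_)) h1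
    intro y hy
    rw [mem_sdiff, hB0, mem_inter] at hy
    rw [mem_inter, mem_symmDiff]
    exact ⟨Or.inr ⟨hy.1.1, hy.2⟩, hy.1.2⟩
  let miss : Fin n → ℕ := fun y => (A.filter (fun x => y ∉ nbr c q x)).card
  have hmiss : ∑ y ∈ B0, miss y = ∑ x ∈ A, (B0 \ nbr c q x).card := by
    have h1 : ∀ y ∈ B0, miss y = ∑ x ∈ A, if y ∉ nbr c q x then 1 else 0 := by
      intro y _
      simp only [miss]
      rw [card_filter]
    rw [sum_congr rfl h1, sum_comm]
    refine sum_congr rfl ?_
    intro x _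
    rw [← card_filter]
    congr 1
    ext y
    simp only [mem_filter, mem_sdiff]
  have hmiss2 : m * ∑ y ∈ B0, miss y ≤ A.card * N := by
    rw [hmiss, mul_sum, ← smul_eq_mul A.card]
    exact sum_le_card_nsmul _ _ _ hAB0
  set B := B0.filter (fun y => 4 * k * miss y ≤ A.card) with hB
  have hBB0 : B ⊆ B0 := filter_subset _ _
  have hBU : B ⊆ U := hBB0.trans inter_subset_right
  have hbad : 8 * k * (B0.filter (fun y => ¬ 4 * k * miss y ≤ A.card)).card ≤ N := by
    set Z := B0.filter (fun y => ¬ 4 * k * miss y ≤ A.card) with hZ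
    have h1 : Z.card * A.card ≤ 4 * k * ∑ y ∈ B0, miss y := by
      calc Z.card * A.card = ∑ y ∈ Z, A.card := by rw [sum_const, smul_eq_mul]
        _ ≤ ∑ y ∈ Z, 4 * k * miss y := by
            refine sum_le_sum ?_
            intro y hy
            have := (mem_filter.1 hy).2
            omega
        _ = 4 * k * ∑ y ∈ Z, miss y := by rw [mul_sum]
        _ ≤ 4 * k * ∑ y ∈ B0, miss y :=
            Nat.mul_le_mul_left _ (sum_le_sum_of_subset (filter_subset _ _))
    have h2 : (4 * k * A.card) * (8 * k * Z.card) ≤ (4 * k * A.card) * N := by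
      calc (4 * k * A.card) * (8 * k * Z.card) = m * (Z.card * A.card) := by rw [hm]; ring
        _ ≤ m * (4 * k * ∑ y ∈ B0, miss y) := Nat.mul_le_mul_left _ h1
        _ = 4 * k * (m * ∑ y ∈ B0, miss y) := by ring
        _ ≤ 4 * k * (A.card * N) := Nat.mul_le_mul_left _ hmiss2
        _ = (4 * k * A.card) * N := by ring
    exact Nat.le_of_mul_le_mul_left h2 (by positivity)
  have hBcard : N ≤ 8 * k * B.card := by
    have h1 : B.card + (B0.filter (fun y => ¬ 4 * k * miss y ≤ A.card)).card = B0.card :=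
      card_filter_add_card_filter_not _
    have h2 : 8 * k * B0.card = 8 * k * B.card + 8 * k * (B0.filter (fun y => ¬ 4 * k * miss y ≤ A.card)).card := by
      rw [← mul_add, h1]
    have h3 : 4 * (2 * k * B0.card) = 8 * k * B0.card := by ring
    omega
  -- representatives
  have hrep : ∀ b ∈ labs c B, ∃ z : Fin n × Fin n, z.1 ∈ B ∧ z.2 ∈ B ∧ z.1 ≠ z.2 ∧ c z.1 z.2 = b := by
    intro b hb
    obtain ⟨x, hx, y, hy, hxy, h⟩ := mem_labs.1 hb
    exact ⟨(x, y), hx, hy, hxy, h⟩
  have : Nonempty (Fin n × Fin n) := ⟨(w, w)⟩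
  choose! f hf using hrep
  set Y := (labs c B).image (fun b => (f b).1) ∪ (labs c B).image (fun b => (f b).2) with hY
  have hYB : Y ⊆ B := by
    intro y hy
    rw [hY, mem_union, mem_image, mem_image] at hy
    rcases hy with ⟨b, hb, rfl⟩ | ⟨b, hb, rfl⟩
    · exact (hf b hb).1
    · exact (hf b hb).2.1
  have hYcard : Y.card ≤ 2 * k := by
    have h1 : (labs c B).card ≤ k := labs_card_le
    refine (card_union_le _ _).trans ?_
    have h2 := card_image_le (s := labs c B) (f := fun b => (f b).1)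
    have h3 := card_image_le (s := labs c B) (f := fun b => (f b).2)
    omega
  have hYlab : ∀ b ∈ labs c B, b ∈ labs c Y := by
    intro b hb
    refine mem_labs.2 ⟨(f b).1, ?_, (f b).2, ?_, (hf b hb).2.2.1, (hf b hb).2.2.2⟩
    · rw [hY, mem_union]; exact Or.inl (mem_image_of_mem (fun b => (f b).1) hb)
    · rw [hY, mem_union]; exact Or.inr (mem_image_of_mem (fun b => (f b).2) hb)
  set A' := A.filter (fun x => ∀ y ∈ Y, y ∈ nbr c q x) with hA'
  have hA'card : A.card ≤ 2 * A'.card := by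
    have h1 : A'.card + (A.filter (fun x => ¬ ∀ y ∈ Y, y ∈ nbr c q x)).card = A.card :=
      card_filter_add_card_filter_not _
    have h2 : A.filter (fun x => ¬ ∀ y ∈ Y, y ∈ nbr c q x) ⊆ Y.biUnion (fun y => A.filter (fun x => y ∉ nbr c q x)) := by
      intro x hx
      rw [mem_filter] at hx
      obtain ⟨hxA, hx⟩ := hx
      push Not at hx
      obtain ⟨y, hy, hyx⟩ := hx
      exact mem_biUnion.2 ⟨y, hy, mem_filter.2 ⟨hxA, hyx⟩⟩
    have h3 : 4 * k * (A.filter (fun x => ¬ ∀ y ∈ Y, y ∈ nbr c q x)).card ≤ 2 * k * A.card := by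
      calc 4 * k * (A.filter (fun x => ¬ ∀ y ∈ Y, y ∈ nbr c q x)).card
          ≤ 4 * k * ∑ y ∈ Y, miss y := Nat.mul_le_mul_left _ ((card_le_card h2).trans card_biUnion_le)
        _ = ∑ y ∈ Y, 4 * k * miss y := by rw [mul_sum]
        _ ≤ ∑ y ∈ Y, A.card := sum_le_sum (fun y hy => (mem_filter.1 (hYB hy)).2)
        _ = Y.card * A.card := by rw [sum_const, smul_eq_mul]
        _ ≤ 2 * k * A.card := Nat.mul_le_mul_right _ hYcard
    have h4 : 2 * k * (2 * (A.filter (fun x => ¬ ∀ y ∈ Y, y ∈ nbr c q x)).card) ≤ 2 * k * A.card := by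
      have : 2 * k * (2 * (A.filter (fun x => ¬ ∀ y ∈ Y, y ∈ nbr c q x)).card) =
        4 * k * (A.filter (fun x => ¬ ∀ y ∈ Y, y ∈ nbr c q x)).card := by ring
      rw [this]
      exact h3
    have h5 := Nat.le_of_mul_le_mul_left h4 (by positivity)
    omega
  refine ⟨A', (filter_subset _ _).trans (hAX.trans hXU), B, hBU, ?_, ?_, hBcard⟩
  · exact disj_labs hsym hgood ((filter_subset _ _).trans (hAX.trans hXU)) (hYB.trans hBU) hYlab
      (fun x hx => (mem_filter.1 hx).2)
  · calc N ≤ 2 * k * X.card := hXcard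
      _ ≤ 2 * k * (packR d m * A.card) := Nat.mul_le_mul_left _ hXA
      _ ≤ 2 * k * (packR d m * (2 * A'.card)) := Nat.mul_le_mul_left _ (Nat.mul_le_mul_left _ hA'card)
      _ = 4 * k * packR d m * A'.card := by ring

end Pool.Agent.Helper34_VC
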