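import Mathlib
import Pool.Agent.Helper34_VC.Step

/-! The recursion. -/

namespace Pool.Agent.Helper34_VC

open Finset

variable {n k : ℕ}

theorem labs_pos {c : Fin n → Fin n → Fin k} {U : Finset (Fin n)} (hU : 2 ≤ U.card) : 1 ≤ (labs c U).card := by
  obtain ⟨x, hx, y, hy, hxy⟩ := one_lt_card.1 (show 1 < U.card by omega)
  exact card_pos.2 ⟨c x y, mem_labs.2 ⟨x, hx, y, hy, hxy, rfl⟩⟩

theorem log_le_add {a b M : ℕ} (ha : 1 ≤ a) (h : a ≤ M * b) (hb : 1 ≤ b) :
    Real.log a ≤ Real.log M + Real.log b := by
  have hM : 1 ≤ M := by
    rcases Nat.eq_zero_or_pos M with h0 | h0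
    · rw [h0] at h; omega
    · exact h0
  rw [← Real.log_mul (by positivity) (by positivity)]
  apply Real.log_le_log (by positivity)
  exact_mod_cast h

/-- the constant of the recursion -/
theorem rec_bound {c : Fin n → Fin n → Fin k} (hsym : ∀ x y, c x y = c y x) {d : ℕ} (hd : 1 ≤ d)
    (hvc : ClassVC c d) (D : ℝ) (hD : 1 < D) :
    ∀ (P : ℕ) (U : Finset (Fin n)), Good c 4 U → (labs c U).card = P → 1 ≤ U.card →
      Real.log U.card ≤ (Real.log ((4 * k * packR d (32 * k ^ 2) : ℕ) : ℝ) / Real.log D
        + Real.log ((8 * k : ℕ) : ℝ) * D) * Real.log (max P 1 : ℝ)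
        + (Real.log ((4 * k * packR d (32 * k ^ 2) : ℕ) : ℝ) + Real.log ((8 * k : ℕ) : ℝ)) := by
  set a := Real.log ((4 * k * packR d (32 * k ^ 2) : ℕ) : ℝ) with ha
  set b := Real.log ((8 * k : ℕ) : ℝ) with hb
  have ha0 : 0 ≤ a := Real.log_natCast_nonneg _
  have hb0 : 0 ≤ b := Real.log_natCast_nonneg _
  have hlD : 0 < Real.log D := Real.log_pos hD
  set κ := a / Real.log D + b * D with hκ
  have hκ0 : 0 ≤ κ := by positivity
  intro P
  induction P using Nat.strong_induction_on with
  | _ P ih =>
    intro U hgood hP hU1
    have hlogP : 0 ≤ Real.log (max (P : ℝ) 1) := Real.log_nonneg (le_max_right _ _)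
    rcases Nat.lt_or_ge U.card 2 with hU | hU
    · have h1 : U.card = 1 := by omega
      rw [h1, Nat.cast_one, Real.log_one]
      positivity
    obtain ⟨A, hAU, B, hBU, hdisj, hA, hB⟩ := step hsym hd hvc hgood hU
    have hA1 : 1 ≤ A.card := by
      rcases Nat.eq_zero_or_pos A.card with h | h
      · rw [h] at hA; omega
      · exact h
    have hB1 : 1 ≤ B.card := by
      rcases Nat.eq_zero_or_pos B.card with h | h
      · rw [h] at hB; omega
      · exact h
    have hsum : (labs c A).card + (labs c B).card ≤ P := by
      rw [← card_union_of_disjoint hdisj, ← hP]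
      exact card_le_card (union_subset (labs_mono hAU) (labs_mono hBU))
    have hlA := log_le_add hU1 hA hA1
    have hlB := log_le_add hU1 hB hB1
    rw [← ha] at hlA
    rw [← hb] at hlB
    have hP1 : 1 ≤ P := by
      rw [← hP]
      exact labs_pos hU
    have hPr : (1 : ℝ) ≤ P := by exact_mod_cast hP1
    have hmaxP : max (P : ℝ) 1 = P := max_eq_left hPr
    have small : ∀ V : Finset (Fin n), (labs c V).card = 0 → Real.log V.card ≤ 0 := by
      intro V hV
      have h1 : V.card ≤ 1 := by
        by_contra hcon
        have := labs_pos (c := c) (U := V) (by omega)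
        omega
      apply Real.log_nonpos (by positivity)
      exact_mod_cast h1
    rcases le_or_gt (((labs c A).card : ℝ) * D) P with hcase | hcase
    · rcases Nat.eq_zero_or_pos (labs c A).card with h0 | h0
      · have := small A h0
        have : 0 ≤ κ * Real.log (max (P : ℝ) 1) := mul_nonneg hκ0 hlogP
        linarith
      · have hA1r : (1 : ℝ) ≤ (labs c A).card := by exact_mod_cast h0
        have hlt : (labs c A).card < P := by
          have : ((labs c A).card : ℝ) < P := by nlinarith
          exact_mod_cast this
        have h1 := ih _ hlt A (hgood.mono hAU) rfl hA1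
        rw [max_eq_left hA1r] at h1
        have h2 : Real.log (labs c A).card ≤ Real.log P - Real.log D := by
          rw [← Real.log_div (by positivity) (by positivity)]
          apply Real.log_le_log (by positivity)
          rw [le_div_iff₀ (by positivity)]
          exact hcase
        have h3 : a ≤ κ * Real.log D := by
          rw [hκ, add_mul, div_mul_cancel₀ _ hlD.ne']
          have : 0 ≤ b * D * Real.log D := by positivity
          linarith
        have h4 := mul_le_mul_of_nonneg_left h2 hκ0
        rw [hmaxP]
        nlinarith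
    · rcases Nat.eq_zero_or_pos (labs c B).card with h0 | h0
      · have := small B h0
        have : 0 ≤ κ * Real.log (max (P : ℝ) 1) := mul_nonneg hκ0 hlogP
        linarith
      · have hB1r : (1 : ℝ) ≤ (labs c B).card := by exact_mod_cast h0
        have hsumr : ((labs c A).card : ℝ) + (labs c B).card ≤ P := by exact_mod_cast hsum
        have hA0 : 0 < (labs c A).card := by
          rcases Nat.eq_zero_or_pos (labs c A).card with h | h
          · rw [h] at hcase
            simp at hcase
            linarith
          · exact h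
        have hlt : (labs c B).card < P := by omega
        have h1 := ih _ hlt B (hgood.mono hBU) rfl hB1
        rw [max_eq_left hB1r] at h1
        have hDpos : 0 < D := by linarith
        have h5 : ((labs c B).card : ℝ) ≤ P * (1 - 1 / D) := by
          have : (P : ℝ) / D < (labs c A).card := by
            rw [div_lt_iff₀ hDpos]
            exact hcase
          have e : (P : ℝ) * (1 - 1 / D) = P - P / D := by ring
          rw [e]
          linarith
        have h6 : 0 < 1 - 1 / D := by
          rw [sub_pos, div_lt_one hDpos]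
          exact hD
        have h2 : Real.log (labs c B).card ≤ Real.log P - 1 / D := by
          have h7 : Real.log (labs c B).card ≤ Real.log (P * (1 - 1 / D)) :=
            Real.log_le_log (by positivity) h5
          rw [Real.log_mul (by positivity) h6.ne'] at h7
          have h8 := Real.log_le_sub_one_of_pos h6
          linarith
        have h3 : b ≤ κ * (1 / D) := by
          rw [hκ, add_mul]
          have e1 : b * D * (1 / D) = b := by field_simp
          rw [e1]
          have : 0 ≤ a / Real.log D * (1 / D) := by positivity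
          linarith
        have h4 := mul_le_mul_of_nonneg_left h2 hκ0
        rw [hmaxP]
        nlinarith

/-- passing to a majority neighbourhood -/
theorem reduce {c : Fin n → Fin n → Fin k} (hsym : ∀ x y, c x y = c y x) {p : ℕ}
    {U : Finset (Fin n)} (hgood : Good c (p + 1) U) (hU : 2 ≤ U.card) :
    ∃ U' ⊆ U, Good c p U' ∧ U.card ≤ 2 * k * U'.card ∧ ∃ q, ∃ x ∈ U, ∀ y ∈ U', x ≠ y ∧ c x y = q := by
  obtain ⟨q, hq⟩ := exists_major c U hU
  have hx : ∃ x ∈ U, U.card - 1 ≤ k * (nbr c q x ∩ U).card := by
    by_contra hcon
    push Not at hcon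
    have h1 : ∑ x ∈ U, k * (nbr c q x ∩ U).card < ∑ x ∈ U, (U.card - 1) :=
      sum_lt_sum_of_nonempty (card_pos.1 (by omega)) hcon
    rw [← mul_sum, sum_const, smul_eq_mul] at h1
    omega
  obtain ⟨x, hx, hxc⟩ := hx
  refine ⟨nbr c q x ∩ U, inter_subset_right, ?_, ?_, q, x, hx, ?_⟩
  · intro S hS hScard
    have hxS : x ∉ S := by
      intro h
      have := hS h
      rw [mem_inter, mem_nbr] at this
      exact this.1.1 rfl
    have h1 := hgood (insert x S) (by
      intro z hz
      rcases mem_insert.1 hz with rfl | hz
      · exact hx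
      · exact (mem_inter.1 (hS hz)).2) (by rw [card_insert_of_notMem hxS, hScard])
    have h2 : labs c (insert x S) ⊆ insert q (labs c S) := by
      intro b hb
      obtain ⟨z, hz, w, hw, hzw, rfl⟩ := mem_labs.1 hb
      rw [mem_insert]
      rcases mem_insert.1 hz with rfl | hz'
      · rcases mem_insert.1 hw with hw' | hw'
        · exact absurd hw'.symm hzw
        · have := hS hw'
          rw [mem_inter, mem_nbr] at this
          exact Or.inl this.1.2
      · rcases mem_insert.1 hw with hw' | hw'
        · have := hS hz'
          rw [mem_inter, mem_nbr] at this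
          left
          rw [hsym, hw']
          exact this.1.2
        · exact Or.inr (mem_labs.2 ⟨z, hz', w, hw', hzw, rfl⟩)
    have h3 := (card_le_card h2).trans (card_insert_le _ _)
    omega
  · have : 2 * k * (nbr c q x ∩ U).card = 2 * (k * (nbr c q x ∩ U).card) := by ring
    omega
  · intro y hy
    rw [mem_inter, mem_nbr] at hy
    exact ⟨hy.1.1.symm, hy.1.2⟩

/-- from `p` to `4` -/
theorem reduce_four {c : Fin n → Fin n → Fin k} (hsym : ∀ x y, c x y = c y x) (M : ℝ) (hM0 : 0 ≤ M)
    (hM : ∀ U, Good c 4 U → 1 ≤ U.card → Real.log U.card ≤ M) (j : ℕ) :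
    ∀ U, Good c (4 + j) U → 1 ≤ U.card → Real.log U.card ≤ M + j * Real.log (2 * k : ℝ) := by
  induction j with
  | zero =>
    intro U h1 h2
    simpa using hM U h1 h2
  | succ j ih =>
    intro U h1 h2
    have hk : 1 ≤ k := by
      obtain ⟨x, _⟩ := card_pos.1 h2
      have := (c x x).2
      omega
    have hkr : (1 : ℝ) ≤ k := by exact_mod_cast hk
    have hl : 0 ≤ Real.log (2 * k : ℝ) := Real.log_nonneg (by linarith)
    rcases Nat.lt_or_ge U.card 2 with hU | hU
    · have h3 : U.card = 1 := by omega
      rw [h3, Nat.cast_one, Real.log_one]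
      positivity
    obtain ⟨U', hU', hg, hc, _⟩ := reduce hsym (p := 4 + j) h1 hU
    have hU'1 : 1 ≤ U'.card := by
      rcases Nat.eq_zero_or_pos U'.card with h | h
      · rw [h] at hc; omega
      · exact h
    have h4 := log_le_add h2 hc hU'1
    have h5 := ih U' hg hU'1
    push_cast at h4 ⊢
    linarith

/-- the trivial bound -/
theorem trivial_bound {c : Fin n → Fin n → Fin k} (hsym : ∀ x y, c x y = c y x) :
    ∀ (P : ℕ) (U : Finset (Fin n)), Good c 4 U → (labs c U).card = P → 1 ≤ U.card →
      Real.log U.card ≤ (P + 1) * (2 * Real.log (2 * k : ℝ)) := by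
  intro P
  induction P using Nat.strong_induction_on with
  | _ P ih =>
    intro U hgood hP hU1
    have hk : 1 ≤ k := by
      obtain ⟨x, _⟩ := card_pos.1 hU1
      have := (c x x).2
      omega
    have hkr : (1 : ℝ) ≤ k := by exact_mod_cast hk
    have hl : 0 ≤ Real.log (2 * k : ℝ) := Real.log_nonneg (by linarith)
    rcases Nat.lt_or_ge U.card 2 with hU | hU
    · have h3 : U.card = 1 := by omega
      rw [h3, Nat.cast_one, Real.log_one]
      positivity
    -- two steps without the clique condition
    have good3 : ∀ V : Finset (Fin n), 2 ≤ V.card → ∃ V' ⊆ V, V.card ≤ 2 * k * V'.card ∧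
        ∃ q, ∃ x ∈ V, ∀ y ∈ V', x ≠ y ∧ c x y = q := by
      intro V hV
      obtain ⟨q, hq⟩ := exists_major c V hV
      have hx : ∃ x ∈ V, V.card - 1 ≤ k * (nbr c q x ∩ V).card := by
        by_contra hcon
        push Not at hcon
        have h1 : ∑ x ∈ V, k * (nbr c q x ∩ V).card < ∑ x ∈ V, (V.card - 1) :=
          sum_lt_sum_of_nonempty (card_pos.1 (by omega)) hcon
        rw [← mul_sum, sum_const, smul_eq_mul] at h1
        omega
      obtain ⟨x, hx, hxc⟩ := hx
      refine ⟨nbr c q x ∩ V, inter_subset_right, ?_, q, x, hx, ?_⟩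
      · have : 2 * k * (nbr c q x ∩ V).card = 2 * (k * (nbr c q x ∩ V).card) := by ring
        omega
      · intro y hy
        rw [mem_inter, mem_nbr] at hy
        exact ⟨hy.1.1.symm, hy.1.2⟩
    obtain ⟨U', hU', hc', q, x, hx, hxq⟩ := good3 U hU
    have hU'1 : 1 ≤ U'.card := by
      rcases Nat.eq_zero_or_pos U'.card with h | h
      · rw [h] at hc'; omega
      · exact h
    have h4 := log_le_add hU1 hc' hU'1
    push_cast at h4
    have hPnn : (0 : ℝ) ≤ P := by positivity
    rcases Nat.lt_or_ge U'.card 2 with hU2 | hU2
    · have h3 : U'.card = 1 := by omega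
      rw [h3, Nat.cast_one, Real.log_one] at h4
      nlinarith
    obtain ⟨V, hV, hcV, q', x', hx', hxq'⟩ := good3 U' hU2
    have hV1 : 1 ≤ V.card := by
      rcases Nat.eq_zero_or_pos V.card with h | h
      · rw [h] at hcV; omega
      · exact h
    have h5 := log_le_add hU'1 hcV hV1
    push_cast at h5
    rcases Nat.lt_or_ge V.card 2 with hV2 | hV2
    · have h3 : V.card = 1 := by omega
      rw [h3, Nat.cast_one, Real.log_one] at h5
      nlinarith
    -- the colour q does not occur inside V
    have hVU : V ⊆ U := hV.trans hU'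
    have hqU : q ∈ labs c U := mem_labs.2 ⟨x, hx, x', hU' hx', (hxq x' hx').1, (hxq x' hx').2⟩
    have hqV : q ∉ labs c V := by
      intro hqV
      obtain ⟨y, hy, y', hy', hyy, hyq⟩ := mem_labs.1 hqV
      have e1 := hxq x' hx'
      have e2 := hxq y (hV hy)
      have e3 := hxq y' (hV hy')
      have e4 := hxq' y hy
      have e5 := hxq' y' hy'
      have hcard : ({x, x', y, y'} : Finset (Fin n)).card = 4 := by
        rw [card_insert_of_notMem, card_insert_of_notMem, card_insert_of_notMem, card_singleton]
        · simp [hyy]
        · simp [e4.1, e5.1]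
        · simp [e1.1, e2.1, e3.1]
      have h6 := hgood {x, x', y, y'} (by
        intro z hz
        simp only [mem_insert, mem_singleton] at hz
        rcases hz with rfl | rfl | rfl | rfl
        · exact hx
        · exact hU' hx'
        · exact hVU hy
        · exact hVU hy') hcard
      have h7 : labs c {x, x', y, y'} ⊆ {q, q'} := by
        intro e he
        obtain ⟨z, hz, w, hw, hzw, rfl⟩ := mem_labs.1 he
        simp only [mem_insert, mem_singleton] at hz hw ⊢
        rcases hz with rfl | rfl | rfl | rfl <;> rcases hw with rfl | rfl | rfl | rfl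
        · exact absurd rfl hzw
        · exact Or.inl e1.2
        · exact Or.inl e2.2
        · exact Or.inl e3.2
        · exact Or.inl ((hsym _ _).trans e1.2)
        · exact absurd rfl hzw
        · exact Or.inr e4.2
        · exact Or.inr e5.2
        · exact Or.inl ((hsym _ _).trans e2.2)
        · exact Or.inr ((hsym _ _).trans e4.2)
        · exact absurd rfl hzw
        · exact Or.inl hyq
        · exact Or.inl ((hsym _ _).trans e3.2)
        · exact Or.inr ((hsym _ _).trans e5.2)
        · exact Or.inl ((hsym _ _).trans hyq)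
        · exact absurd rfl hzw
      have h8 := (card_le_card h7).trans card_le_two
      omega
    have hlt : (labs c V).card < P := by
      rw [← hP]
      apply card_lt_card
      refine ⟨labs_mono hVU, fun h => hqV (h hqU)⟩
    have h9 := ih _ hlt V (hgood.mono hVU) rfl hV1
    have h10 : (((labs c V).card : ℝ) + 1) ≤ P := by exact_mod_cast hlt
    nlinarith [mul_le_mul_of_nonneg_right h10 (show (0:ℝ) ≤ 2 * Real.log (2 * k : ℝ) by linarith)]

end Pool.Agent.Helper34_VC
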