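import Mathlib
import Pool.Agent.Helper34_VC.Rec

/-! The upper bound. -/

namespace Pool.Agent.Helper34_VC

open Finset

variable {n k : ℕ}

theorem log_packR {d m : ℕ} (hd : 1 ≤ d) (hm : 1 ≤ m) :
    Real.log ((packR d m : ℕ) : ℝ) ≤ 2 * d * Real.log (12 * d * m : ℝ) := by
  unfold packR
  set s := Nat.size (6 * d * m) with hs
  have hs1 : 1 ≤ s := by
    rw [hs, Nat.one_le_iff_ne_zero, Nat.ne_zero_iff_zero_lt, Nat.size_pos]
    positivity
  have h1 : 2 ^ (s - 1) ≤ 6 * d * m := by
    rw [← Nat.lt_size, ← hs]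
    omega
  have h2 : (2 : ℝ) ^ s ≤ 12 * d * m := by
    have h3 : 2 ^ s ≤ 12 * d * m := by
      obtain ⟨t, ht⟩ : ∃ t, s = t + 1 := ⟨s - 1, by omega⟩
      rw [ht] at h1 ⊢
      rw [Nat.add_sub_cancel] at h1
      rw [pow_succ]
      have : 12 * d * m = 6 * d * m * 2 := by ring
      omega
    exact_mod_cast h3
  have h4 : (s : ℝ) * Real.log 2 ≤ Real.log (12 * d * m : ℝ) := by
    rw [← Real.log_pow]
    exact Real.log_le_log (by positivity) h2
  push_cast
  rw [Real.log_pow]
  push_cast
  have hd0 : (0 : ℝ) ≤ d := by positivity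
  nlinarith [mul_le_mul_of_nonneg_left h4 hd0]

theorem log_le_mul_of_le_pow {a b : ℕ} (ha : 1 ≤ a) (j : ℕ) (h : a ≤ b ^ j) : Real.log a ≤ j * Real.log b := by
  rw [← Real.log_pow]
  apply Real.log_le_log (by positivity)
  exact_mod_cast h

theorem good_of_not_forces {c : Fin n → Fin n → Fin k} {p : ℕ} (hp : 2 ≤ p)
    (h : ¬ ∃ S : Finset (Fin n), S.card = p ∧ (S.offDiag.image (fun e => c e.1 e.2)).card ≤ p - 2) :
    Good c p univ := by
  intro S _ hS
  push Not at h
  have := h S hS
  unfold labs
  omega

theorem four_bound {c : Fin n → Fin n → Fin k} (hsym : ∀ x y, c x y = c y x) {d : ℕ} (hd : 1 ≤ d)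
    (hk : 2 ≤ k) (hvc : ClassVC c d) (U : Finset (Fin n)) (hgood : Good c 4 U) (hU : 1 ≤ U.card) :
    Real.log U.card ≤ 124 * (d / Real.log (d + 1)) * (Real.log k) ^ 2 := by
  have hk2 : (2 : ℝ) ≤ k := by exact_mod_cast hk
  have hd1 : (1 : ℝ) ≤ d := by exact_mod_cast hd
  have hlk : Real.log 2 ≤ Real.log k := Real.log_le_log (by norm_num) hk2
  have hl2 : (0.69 : ℝ) < Real.log 2 := by
    have := Real.log_two_gt_d9
    linarith
  have hlk0 : 0 < Real.log k := by linarith
  have hld : 0 < Real.log (d + 1 : ℝ) := Real.log_pos (by linarith)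
  have hPk : ((labs c U).card : ℝ) ≤ k := by exact_mod_cast labs_card_le
  have h2k : Real.log (2 * k : ℝ) ≤ 2 * Real.log k := by
    rw [Real.log_mul (by norm_num) (by positivity)]
    linarith
  rcases Nat.lt_or_ge k d with hdk | hdk
  · -- trivial bound
    have h1 := trivial_bound hsym _ U hgood rfl hU
    have h2 : Real.log U.card ≤ 6 * k * Real.log k := by
      have hlk2 : 0 ≤ Real.log (2 * k : ℝ) := Real.log_nonneg (by linarith)
      have h3 : ((labs c U).card : ℝ) + 1 ≤ 3 / 2 * k := by linarith
      calc Real.log U.card ≤ ((labs c U).card + 1) * (2 * Real.log (2 * k : ℝ)) := h1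
        _ ≤ (3 / 2 * k) * (2 * Real.log (2 * k : ℝ)) := mul_le_mul_of_nonneg_right h3 (by linarith)
        _ ≤ (3 / 2 * k) * (2 * (2 * Real.log k)) := by
            apply mul_le_mul_of_nonneg_left _ (by positivity)
            linarith
        _ = 6 * k * Real.log k := by ring
    have h4 : (k : ℝ) * Real.log (d + 1 : ℝ) ≤ 3 * d * Real.log k := by
      have hdkr : (k : ℝ) + 1 ≤ d := by exact_mod_cast hdk
      have e1 : Real.log (d + 1 : ℝ) ≤ Real.log k + d / k := by
        have : (d + 1 : ℝ) = k * ((d + 1) / k) := by field_simp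
        rw [this, Real.log_mul (by positivity) (by positivity)]
        have e2 := Real.log_le_sub_one_of_pos (show (0:ℝ) < (d + 1) / k by positivity)
        have e3 : ((d : ℝ) + 1) / k - 1 ≤ d / k := by
          rw [add_div]
          have : (1 : ℝ) / k ≤ 1 := by
            rw [div_le_one (by positivity)]
            linarith
          linarith
        linarith
      calc (k : ℝ) * Real.log (d + 1 : ℝ) ≤ k * (Real.log k + d / k) :=
            mul_le_mul_of_nonneg_left e1 (by positivity)
        _ = k * Real.log k + d := by field_simp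
        _ ≤ d * Real.log k + d := by
            have : (k : ℝ) * Real.log k ≤ d * Real.log k := mul_le_mul_of_nonneg_right (by linarith) hlk0.le
            linarith
        _ ≤ 3 * d * Real.log k := by
            have : (d : ℝ) ≤ 2 * d * Real.log k := by nlinarith
            linarith
    have h5 : (k : ℝ) ≤ 3 * (d / Real.log (d + 1)) * Real.log k := by
      have e : 3 * ((d : ℝ) / Real.log (d + 1)) * Real.log k = (3 * d * Real.log k) / Real.log (d + 1) := by ring
      rw [e, le_div_iff₀ hld]
      exact h4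
    have hq0 : 0 ≤ (d : ℝ) / Real.log (d + 1) := by positivity
    calc Real.log U.card ≤ 6 * k * Real.log k := h2
      _ ≤ 6 * (3 * (d / Real.log (d + 1)) * Real.log k) * Real.log k := by
          apply mul_le_mul_of_nonneg_right _ hlk0.le
          linarith
      _ ≤ 124 * (d / Real.log (d + 1)) * (Real.log k) ^ 2 := by
          have : 0 ≤ (d : ℝ) / Real.log (d + 1) * (Real.log k) ^ 2 := by positivity
          nlinarith
  · have hdkr : (d : ℝ) ≤ k := by exact_mod_cast hdk
    set D := Real.sqrt (d + 1) with hDdef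
    have hD1 : 1 < D := by
      rw [hDdef, Real.lt_sqrt (by norm_num)]
      linarith
    have hlD : Real.log D = Real.log (d + 1 : ℝ) / 2 := by
      rw [hDdef, Real.log_sqrt (by positivity)]
    have h1 := rec_bound hsym hd hvc D hD1 _ U hgood rfl hU
    set a := Real.log ((4 * k * packR d (32 * k ^ 2) : ℕ) : ℝ) with ha
    set b := Real.log ((8 * k : ℕ) : ℝ) with hb
    have ha0 : 0 ≤ a := Real.log_natCast_nonneg _
    have hb0 : 0 ≤ b := Real.log_natCast_nonneg _
    have hb4 : b ≤ 4 * Real.log k := by
      refine (log_le_mul_of_le_pow (b := k) (by omega) 4 ?_).trans (by norm_num)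
      have : 2 ^ 3 ≤ k ^ 3 := Nat.pow_le_pow_left hk 3
      calc 8 * k ≤ k ^ 3 * k := Nat.mul_le_mul_right _ this
        _ = k ^ 4 := by ring
    have ha27 : a ≤ 27 * d * Real.log k := by
      have hR : 0 < packR d (32 * k ^ 2) := by unfold packR; positivity
      have e0 : a = Real.log ((4 * k : ℕ) : ℝ) + Real.log ((packR d (32 * k ^ 2) : ℕ) : ℝ) := by
        rw [ha, Nat.cast_mul, Real.log_mul]
        · have : 0 < 4 * k := by omega
          exact_mod_cast this.ne'
        · exact_mod_cast hR.ne'
      have e1 : Real.log ((4 * k : ℕ) : ℝ) ≤ 3 * Real.log k := by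
        refine (log_le_mul_of_le_pow (b := k) (by omega) 3 ?_).trans (by norm_num)
        have : 2 ^ 2 ≤ k ^ 2 := Nat.pow_le_pow_left hk 2
        calc 4 * k ≤ k ^ 2 * k := Nat.mul_le_mul_right _ this
          _ = k ^ 3 := by ring
      have e2 := log_packR hd (show 1 ≤ 32 * k ^ 2 by have := Nat.one_le_pow 2 k (by omega); omega)
      have e3 : Real.log (12 * d * (32 * k ^ 2 : ℕ) : ℝ) ≤ 12 * Real.log k := by
        have e4 : Real.log ((12 * d * (32 * k ^ 2) : ℕ) : ℝ) ≤ (12 : ℕ) * Real.log k := by
          apply log_le_mul_of_le_pow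
          · have : 0 < 12 * d * (32 * k ^ 2) := by positivity
            omega
          · have e5 : 2 ^ 9 ≤ k ^ 9 := Nat.pow_le_pow_left hk 9
            calc 12 * d * (32 * k ^ 2) ≤ 12 * k * (32 * k ^ 2) := by gcongr
              _ = 384 * (k ^ 3) := by ring
              _ ≤ k ^ 9 * k ^ 3 := Nat.mul_le_mul_right _ (by omega)
              _ = k ^ 12 := by ring
        push_cast at e4 ⊢
        exact e4
      have e6 : 2 * (d : ℝ) * Real.log (12 * d * (32 * k ^ 2 : ℕ) : ℝ) ≤ 2 * d * (12 * Real.log k) :=
        mul_le_mul_of_nonneg_left e3 (by positivity)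
      have e7 : 3 * Real.log k ≤ 3 * d * Real.log k := by nlinarith
      rw [e0]
      linarith
    have hP : Real.log (max ((labs c U).card : ℝ) 1) ≤ Real.log k :=
      Real.log_le_log (by positivity) (max_le hPk (by linarith))
    -- sqrt
    have hsq : D * Real.log (d + 1 : ℝ) ≤ 2 * d := by
      have e1 : Real.log (d + 1 : ℝ) ≤ 2 * (D - 1) := by
        have := Real.log_le_sub_one_of_pos (show (0:ℝ) < D by linarith)
        linarith
      have e2 : D * D = d + 1 := by
        rw [hDdef, Real.mul_self_sqrt (by positivity)]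
      nlinarith
    have hDle : D ≤ 2 * (d / Real.log (d + 1)) := by
      have e : 2 * ((d : ℝ) / Real.log (d + 1)) = (2 * d) / Real.log (d + 1) := by ring
      rw [e, le_div_iff₀ hld]
      exact hsq
    set t := (d : ℝ) / Real.log (d + 1) with ht
    have ht0 : 0 ≤ t := by positivity
    have hκ : a / Real.log D + b * D ≤ 62 * t * Real.log k := by
      have e1 : a / Real.log D ≤ 54 * t * Real.log k := by
        rw [hlD, div_le_iff₀ (by linarith)]
        have e2 : 54 * t * Real.log k * (Real.log (d + 1) / 2) = 27 * d * Real.log k := by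
          rw [ht]
          field_simp
          ring
        rw [e2]
        exact ha27
      have e3 : b * D ≤ 8 * t * Real.log k := by
        calc b * D ≤ (4 * Real.log k) * (2 * t) := mul_le_mul hb4 hDle (by linarith) (by positivity)
          _ = 8 * t * Real.log k := by ring
      linarith
    have hdt : (d : ℝ) ≤ 2 * t * Real.log k := by
      have e1 : Real.log (d + 1 : ℝ) ≤ 2 * Real.log k := by
        have e2 : Real.log (d + 1 : ℝ) ≤ Real.log (k ^ 2 : ℝ) := by
          apply Real.log_le_log (by positivity)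
          nlinarith
        rw [Real.log_pow] at e2
        exact_mod_cast e2
      have e3 : 2 * t * Real.log k = (2 * Real.log k) * d / Real.log (d + 1) := by rw [ht]; ring
      rw [e3, le_div_iff₀ hld]
      nlinarith
    have hlogP0 : 0 ≤ Real.log (max ((labs c U).card : ℝ) 1) := Real.log_nonneg (le_max_right _ _)
    calc Real.log U.card ≤ (a / Real.log D + b * D) * Real.log (max ((labs c U).card : ℝ) 1) + (a + b) := h1
      _ ≤ (62 * t * Real.log k) * Real.log k + (27 * d * Real.log k + 4 * Real.log k) := by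
          have := mul_le_mul hκ hP hlogP0 (by positivity)
          linarith
      _ ≤ 62 * t * (Real.log k) ^ 2 + 31 * d * Real.log k := by nlinarith
      _ ≤ 62 * t * (Real.log k) ^ 2 + 31 * (2 * t * Real.log k) * Real.log k := by
          have := mul_le_mul_of_nonneg_right hdt hlk0.le
          linarith
      _ = 124 * t * (Real.log k) ^ 2 := by ring

/-- **Upper bound.** -/
theorem upper (d p k n : ℕ) (hd : 1 ≤ d) (hp : 4 ≤ p) (hk : 2 ≤ k)
    (hn : Real.exp (124 * (d / Real.log (d + 1)) * (Real.log k) ^ 2 + (p - 4) * Real.log (2 * k)) < n) :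
    ForcesVC d p k n := by
  intro c hsym hvc
  by_contra hcon
  have hgood := good_of_not_forces (by omega) hcon
  obtain ⟨j, rfl⟩ : ∃ j, p = 4 + j := ⟨p - 4, by omega⟩
  have hnpos : 0 < n := by
    have := Real.exp_pos (124 * (d / Real.log (d + 1)) * (Real.log k) ^ 2 + (((4 + j : ℕ) : ℝ) - 4) * Real.log (2 * k))
    have h : (0 : ℝ) < n := this.trans hn
    exact_mod_cast h
  have hld : 0 < Real.log (d + 1 : ℝ) := Real.log_pos (by
    have : (1 : ℝ) ≤ d := by exact_mod_cast hd
    linarith)
  have h1 := reduce_four hsym (124 * (d / Real.log (d + 1)) * (Real.log k) ^ 2) (by positivity)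
    (fun U hU h1 => four_bound hsym hd hk hvc U hU h1) j univ hgood (by
      rw [card_univ, Fintype.card_fin]
      omega)
  rw [card_univ, Fintype.card_fin] at h1
  have h2 : Real.log n ≤ 124 * (d / Real.log (d + 1)) * (Real.log k) ^ 2 + (((4 + j : ℕ) : ℝ) - 4) * Real.log (2 * k) := by
    push_cast
    have e : (4 + (j : ℝ) - 4) = j := by ring
    rw [e]
    exact h1
  have h3 : (n : ℝ) ≤ Real.exp (124 * (d / Real.log (d + 1)) * (Real.log k) ^ 2 + (((4 + j : ℕ) : ℝ) - 4) * Real.log (2 * k)) := by
    have hn0 : (0 : ℝ) < n := by exact_mod_cast hnpos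
    rw [← Real.log_le_iff_le_exp hn0]
    exact h2
  linarith

end Pool.Agent.Helper34_VC
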